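import Mathlib

set_option autoImplicit false

namespace Pool.Agent.TuranLarge
open Finset Filter Topology

/-- the difference inequality satisfied by the normalised sequence, with `τ = 1 / M ^ 2` -/
structure Hyp (M ε : ℝ) (Q : ℕ → ℝ) : Prop where
  nonneg : ∀ k, 1 ≤ k → 0 ≤ Q k
  anti : ∀ k, 1 ≤ k → Q (k+1) ≤ Q k
  one : 1 - ε ≤ Q 1
  step : ∀ k : ℕ, 1 ≤ k →
    Q (k+1) * (Q (k+1) - Q (k+2)) + 5/6 * ((k:ℝ)+1) * (Q k - Q (k+1)) ^ 2 ≤ ((k:ℝ)+1) / M ^ 2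

/-- barrier curve -/
noncomputable def bP (q : ℝ) : ℝ := q * (6 - q) ^ 2 / 25
/-- barrier time -/
noncomputable def bw (q : ℝ) : ℝ := 6 * (1 - q) * (6 - q) ^ 4 / 3125

lemma Hyp.anti_le {M ε : ℝ} {Q : ℕ → ℝ} (h : Hyp M ε Q) {i j : ℕ} (hi : 1 ≤ i) (hij : i ≤ j) :
    Q j ≤ Q i := by
  induction j, hij using Nat.le_induction with
  | base => exact le_refl _
  | succ j hj ih => exact (h.anti j (hi.trans hj)).trans ih

lemma Hyp.diff_le {M ε : ℝ} {Q : ℕ → ℝ} (hM : 0 < M) (h : Hyp M ε Q) {k : ℕ} (hk : 1 ≤ k) :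
    Q k - Q (k+1) ≤ 2 / M := by
  have h1 := h.step k hk
  have h2 : 0 ≤ Q (k+1) * (Q (k+1) - Q (k+2)) :=
    mul_nonneg (h.nonneg _ (by omega)) (sub_nonneg.2 (h.anti _ (by omega)))
  have hk' : (0:ℝ) < (k:ℝ) + 1 := by positivity
  have h3 : 5/6 * (Q k - Q (k+1)) ^ 2 ≤ 1 / M ^ 2 := by
    have : ((k:ℝ)+1) * (5/6 * (Q k - Q (k+1)) ^ 2) ≤ ((k:ℝ)+1) * (1 / M ^ 2) := by
      have e : ((k:ℝ)+1) * (1 / M ^ 2) = ((k:ℝ)+1) / M ^ 2 := by ring
      rw [e]; nlinarith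
    exact le_of_mul_le_mul_left this hk'
  have h4 : (Q k - Q (k+1)) ^ 2 ≤ (2 / M) ^ 2 := by
    have : (2 / M) ^ 2 = 4 * (1 / M ^ 2) := by ring
    rw [this]
    have : 0 < 1 / M ^ 2 := by positivity
    linarith
  exact (abs_le_of_sq_le_sq' h4 (by positivity)).2

lemma Hyp.lin_le {M ε : ℝ} {Q : ℕ → ℝ} (hM : 0 < M) (h : Hyp M ε Q) (k : ℕ) :
    1 - ε - 2 * k / M ≤ Q (k+1) := by
  induction k with
  | zero => simpa using h.one
  | succ k ih =>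
    have := h.diff_le hM (k := k+1) (by omega)
    push_cast
    have e : 2 * ((k:ℝ)+1) / M = 2 * k / M + 2 / M := by ring
    rw [e]
    linarith

/-- block inequality -/
lemma Hyp.block {M ε : ℝ} {Q : ℕ → ℝ} (hM : 0 < M) (h : Hyp M ε Q) {k n : ℕ} (hk : 1 ≤ k)
    (hn : 1 ≤ n) :
    Q (k+n) * (Q k - Q (k+n) - 2 / M) + 5/6 * k * (Q k - Q (k+n)) ^ 2 / n
      ≤ (n:ℝ) * (n + 2 * k + 1) / (2 * M ^ 2) := by
  have hn' : (0:ℝ) < n := by exact_mod_cast hn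
  have hk' : (1:ℝ) ≤ k := by exact_mod_cast hk
  have hsum : ∑ j ∈ range n, (Q (k+j+1) * (Q (k+j+1) - Q (k+j+2))
      + 5/6 * (((k+j:ℕ):ℝ)+1) * (Q (k+j) - Q (k+j+1)) ^ 2) ≤ ∑ j ∈ range n, (((k+j:ℕ):ℝ)+1) / M ^ 2 :=
    sum_le_sum (fun j _ => h.step (k+j) (by omega))
  have hR : ∑ j ∈ range n, (((k+j:ℕ):ℝ)+1) / M ^ 2 = (n:ℝ) * (n + 2 * k + 1) / (2 * M ^ 2) := by
    rw [← sum_div]
    have : ∀ m : ℕ, ∑ j ∈ range m, (((k+j:ℕ):ℝ)+1) = (m:ℝ) * (m + 2 * k + 1) / 2 := by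
      intro m
      induction m with
      | zero => simp
      | succ m ih => rw [sum_range_succ, ih]; push_cast; ring
    rw [this]
    field_simp
  rw [hR, sum_add_distrib] at hsum
  refine le_trans (add_le_add ?_ ?_) hsum
  · -- first part
    have h1 : ∑ j ∈ range n, Q (k+n) * (Q (k+j+1) - Q (k+j+2))
        ≤ ∑ j ∈ range n, Q (k+j+1) * (Q (k+j+1) - Q (k+j+2)) := by
      refine sum_le_sum (fun j hj => ?_)
      rw [mem_range] at hj
      exact mul_le_mul_of_nonneg_right (h.anti_le (by omega) (by omega))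
        (sub_nonneg.2 (h.anti _ (by omega)))
    refine le_trans ?_ h1
    rw [← mul_sum]
    refine mul_le_mul_of_nonneg_left ?_ (h.nonneg _ (by omega))
    have h2 : ∑ j ∈ range n, (Q (k+j+1) - Q (k+j+2)) = Q (k+1) - Q (k+n+1) := by
      have := Finset.sum_range_sub' (fun j => Q (k+j+1)) n
      simpa [add_assoc, add_comm, add_left_comm] using this
    rw [h2]
    have h3 := h.diff_le hM hk
    have h4 := h.anti (k+n) (by omega)
    linarith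
  · have h1 : ∑ j ∈ range n, 5/6 * (k:ℝ) * (Q (k+j) - Q (k+j+1)) ^ 2
        ≤ ∑ j ∈ range n, 5/6 * (((k+j:ℕ):ℝ)+1) * (Q (k+j) - Q (k+j+1)) ^ 2 := by
      refine sum_le_sum (fun j _ => ?_)
      refine mul_le_mul_of_nonneg_right ?_ (sq_nonneg _)
      push_cast
      have : (0:ℝ) ≤ j := by positivity
      linarith
    refine le_trans ?_ h1
    rw [← mul_sum, div_le_iff₀ hn', mul_assoc (5/6 * (k:ℝ))]
    refine mul_le_mul_of_nonneg_left ?_ (by positivity)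
    have h2 : ∑ j ∈ range n, (Q (k+j) - Q (k+j+1)) = Q k - Q (k+n) := by
      have := Finset.sum_range_sub' (fun j => Q (k+j)) n
      simpa [add_assoc] using this
    rw [← h2]
    have := sq_sum_le_card_mul_sum_sq (s := range n) (f := fun j => Q (k+j) - Q (k+j+1))
    rw [card_range] at this
    linarith

/-- the key inequality along the barrier curve -/
lemma curve_convex {q0 q1 : ℝ} (h0 : q1 ≤ q0) (h1 : q0 ≤ 1) (h2 : 0 ≤ q1) :
    25 * (bw q1 - bw q0) ≤ 2 * (6 - q1) ^ 2 * (bP q0 - bP q1) := by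
  unfold bw bP
  have key : 0 ≤ (q0 - q1) ^ 2 * (2*(6-q1)^3 + 4*(6-q0)*(6-q1)^2 + 6*(6-q0)^2*(6-q1) + 3*(6-q0)^3
      - 15*((6-q0)+(6-q1))^2) := by
    refine mul_nonneg (sq_nonneg _) ?_
    obtain ⟨x, hx⟩ : ∃ x, x = 6 - q0 := ⟨_, rfl⟩
    obtain ⟨y, hy⟩ : ∃ y, y = 6 - q1 := ⟨_, rfl⟩
    rw [← hx, ← hy]
    have hx5 : 5 ≤ x := by linarith
    have hxy : x ≤ y := by linarith
    have hy6 : y ≤ 6 := by linarith
    have a1 : 0 ≤ (y-5)*y^2 := mul_nonneg (by linarith) (sq_nonneg _)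
    have a2 : 0 ≤ (x-5)*x^2 := mul_nonneg (by linarith) (sq_nonneg _)
    have a3 : 0 ≤ (x-5)*(x*y) := mul_nonneg (by linarith) (by nlinarith)
    have a4 : 0 ≤ (y-5)*(x*y) := mul_nonneg (by linarith) (by nlinarith)
    have a5 : 0 ≤ (4*x-y)*y := mul_nonneg (by linarith) (by linarith)
    nlinarith
  nlinarith [key]

lemma bw_pos {q : ℝ} (h : q < 1) : 0 < bw q := by
  unfold bw
  have : 0 < 6 - q := by linarith
  have : 0 < 1 - q := by linarith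
  positivity

lemma bw_lt {q0 q1 : ℝ} (h : q1 < q0) (h0 : q0 < 1) : bw q0 < bw q1 := by
  unfold bw
  have h1 : (6 - q0) ^ 4 < (6 - q1) ^ 4 := pow_lt_pow_left₀ (by linarith) (by linarith) (by norm_num)
  have h2 : 0 < (6 - q0) ^ 4 := by have : 0 < 6 - q0 := by linarith
                                   positivity
  have h3 : (1 - q0) * (6 - q0) ^ 4 < (1 - q1) * (6 - q1) ^ 4 := by
    apply mul_lt_mul'' (by linarith) h1 (by linarith) h2.le
  linarith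

lemma bP_nonneg {q : ℝ} (h : 0 ≤ q) : 0 ≤ bP q := by
  unfold bP; positivity

lemma bP_le {q0 q1 : ℝ} (h : q1 ≤ q0) (h0 : q0 ≤ 1) (h1 : 0 ≤ q1) (hw : bw q0 ≤ bw q1) :
    bP q1 ≤ bP q0 := by
  have h2 := curve_convex h h0 h1
  have h3 : 0 < 2 * (6 - q1) ^ 2 := by
    have : 0 < 6 - q1 := by linarith
    positivity
  by_contra hc
  push Not at hc
  nlinarith

lemma limit_ineq {q0 q1 δ γ s0 s1 : ℝ} (h01 : q1 < q0) (h0 : q0 < 1) (h1 : 0 ≤ q1)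
    (hδ : δ < 1) (hγ : 0 < γ) (hr : bw q1 < (1 + γ) * bw q0) (hs0 : 0 < s0) (hs1 : s0 < s1)
    (e0 : s0 ^ 2 = (1 - δ) ^ 2 / (1 + γ) * bw q0) (e1 : s1 ^ 2 = (1 - δ) ^ 2 / (1 + γ) * bw q1) :
    (s1 ^ 2 - s0 ^ 2) / 2 < (1 - δ) * bP q1 * ((1 - δ) * bP q0 - (1 - δ) * bP q1)
      + 5/6 * s0 * ((1 - δ) * bP q0 - (1 - δ) * bP q1) ^ 2 / (s1 - s0) := by
  have hw := bw_lt h01 h0
  have hw0 := bw_pos h0
  obtain ⟨G, hG⟩ : ∃ G, G = (6 - q1) ^ 2 := ⟨_, rfl⟩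
  have hGpos : 0 < G := by
    rw [hG]; have : 0 < 6 - q1 := by linarith
    positivity
  have hcv := curve_convex h01.le h0.le h1
  rw [← hG] at hcv
  obtain ⟨p, hp⟩ : ∃ p, p = bP q0 - bP q1 := ⟨_, rfl⟩
  obtain ⟨Δ, hΔ⟩ : ∃ Δ, Δ = bw q1 - bw q0 := ⟨_, rfl⟩
  rw [← hp, ← hΔ] at hcv
  have hΔpos : 0 < Δ := by rw [hΔ]; linarith
  have hppos : 25 * Δ / (2 * G) ≤ p := by
    rw [div_le_iff₀ (by positivity)]; linarith
  have hpp : 0 < 25 * Δ / (2 * G) := by positivity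
  have hP1 : bP q1 = q1 * G / 25 := by unfold bP; rw [hG]
  have hw1 : bw q1 = 6 * (1 - q1) * G ^ 2 / 3125 := by unfold bw; rw [hG]; ring
  have hδ' : 0 < (1 - δ) ^ 2 := by
    have : 0 < 1 - δ := by linarith
    positivity
  -- reduce the quotient
  have hq : 5/3 * bw q0 * (1 - δ) ^ 2 * p ^ 2 / Δ
      ≤ 5/6 * s0 * ((1 - δ) * bP q0 - (1 - δ) * bP q1) ^ 2 / (s1 - s0) := by
    have e2 : ((1 - δ) * bP q0 - (1 - δ) * bP q1) ^ 2 = (1 - δ) ^ 2 * p ^ 2 := by rw [hp]; ring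
    rw [e2, div_le_div_iff₀ hΔpos (by linarith)]
    have hz : 0 < (1 - δ) ^ 2 / (1 + γ) := by positivity
    have e3 : (s1 - s0) * (s1 + s0) = (1 - δ) ^ 2 / (1 + γ) * Δ := by
      rw [hΔ]; linear_combination e1 - e0
    -- multiply by ζ
    have h4 : (1 - δ) ^ 2 / (1 + γ) * (5/3 * bw q0 * (1 - δ) ^ 2 * p ^ 2 * (s1 - s0))
        ≤ (1 - δ) ^ 2 / (1 + γ) * (5/6 * s0 * ((1 - δ) ^ 2 * p ^ 2) * Δ) := by
      have e4 : (1 - δ) ^ 2 / (1 + γ) * (5/3 * bw q0 * (1 - δ) ^ 2 * p ^ 2 * (s1 - s0))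
          = 5/6 * ((1 - δ) ^ 2 * p ^ 2) * s0 * (s1 - s0) * (2 * s0) := by
        linear_combination (-(5/3 * (1 - δ) ^ 2 * p ^ 2 * (s1 - s0))) * e0
      have e5 : (1 - δ) ^ 2 / (1 + γ) * (5/6 * s0 * ((1 - δ) ^ 2 * p ^ 2) * Δ)
          = 5/6 * ((1 - δ) ^ 2 * p ^ 2) * s0 * (s1 - s0) * (s1 + s0) := by
        linear_combination (-(5/6 * s0 * ((1 - δ) ^ 2 * p ^ 2))) * e3
      rw [e4, e5]
      refine mul_le_mul_of_nonneg_left (by linarith) ?_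
      have : 0 < s1 - s0 := by linarith
      positivity
    exact le_of_mul_le_mul_left h4 hz
  refine lt_of_lt_of_le ?_ (add_le_add_right hq _)
  have e6 : (s1 ^ 2 - s0 ^ 2) / 2 = (1 - δ) ^ 2 * (Δ / (2 * (1 + γ))) := by
    rw [e1, e0, hΔ]; field_simp
  have e7 : (1 - δ) * bP q1 * ((1 - δ) * bP q0 - (1 - δ) * bP q1)
      + 5/3 * bw q0 * (1 - δ) ^ 2 * p ^ 2 / Δ
      = (1 - δ) ^ 2 * (bP q1 * p + 5/3 * bw q0 * p ^ 2 / Δ) := by
    rw [hp]; ring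
  rw [e6, e7]
  refine mul_lt_mul_of_pos_left ?_ hδ'
  have f1 : q1 * Δ / 2 ≤ bP q1 * p := by
    calc q1 * Δ / 2 = (q1 * G / 25) * (25 * Δ / (2 * G)) := by field_simp
      _ ≤ (q1 * G / 25) * p := mul_le_mul_of_nonneg_left hppos (by positivity)
      _ = bP q1 * p := by rw [hP1]
  have f2 : (1 - q1) * Δ / (2 * (1 + γ)) < 5/3 * bw q0 * p ^ 2 / Δ := by
    have f3 : (25 * Δ / (2 * G)) ^ 2 ≤ p ^ 2 := pow_le_pow_left₀ hpp.le hppos 2
    have f4 : 6 * (1 - q1) * G ^ 2 / 3125 / (1 + γ) < bw q0 := by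
      rw [div_lt_iff₀ (by positivity), ← hw1]; linarith
    calc (1 - q1) * Δ / (2 * (1 + γ))
        = 5/3 * (6 * (1 - q1) * G ^ 2 / 3125 / (1 + γ)) * (25 * Δ / (2 * G)) ^ 2 / Δ := by
          field_simp; ring
      _ < 5/3 * bw q0 * (25 * Δ / (2 * G)) ^ 2 / Δ := by
          refine div_lt_div_of_pos_right ?_ hΔpos
          refine mul_lt_mul_of_pos_right ?_ (by positivity)
          linarith
      _ ≤ 5/3 * bw q0 * p ^ 2 / Δ := by
          refine div_le_div_of_nonneg_right ?_ hΔpos.le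
          refine mul_le_mul_of_nonneg_left f3 (by positivity)
  have f5 : Δ / (2 * (1 + γ)) ≤ q1 * Δ / 2 + (1 - q1) * Δ / (2 * (1 + γ)) := by
    have : q1 * Δ / 2 + (1 - q1) * Δ / (2 * (1 + γ)) - Δ / (2 * (1 + γ))
        = q1 * Δ * γ / (2 * (1 + γ)) := by field_simp; ring
    have h6 : 0 ≤ q1 * Δ * γ / (2 * (1 + γ)) := by positivity
    linarith
  linarith

/-- if the block goes below the barrier, the limiting inequality is violated -/
lemma block_contra {b0 b1 y B d c r : ℝ} (hy : 0 ≤ y) (hyb : y < b1) (hb : b1 ≤ b0) (hB : b0 ≤ B)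
    (hd : 0 ≤ d) (hc : 1/2 ≤ c) (h : y * (B - y - d) + c * (B - y) ^ 2 ≤ r) :
    b1 * (b0 - b1 - d) + c * (b0 - b1) ^ 2 ≤ r := by
  have h1 : b1 * (B - b1 - d) + c * (B - b1) ^ 2 ≤ y * (B - y - d) + c * (B - y) ^ 2 := by
    have e : y * (B - y - d) + c * (B - y) ^ 2 - (b1 * (B - b1 - d) + c * (B - b1) ^ 2)
        = (b1 - y) * (d + (2 * c - 1) * B + (1 - c) * (y + b1)) := by ring
    have : 0 ≤ (b1 - y) * (d + (2 * c - 1) * B + (1 - c) * (y + b1)) := by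
      refine mul_nonneg (by linarith) ?_
      rcases le_total c 1 with h1 | h1
      · have a1 : 0 ≤ (2 * c - 1) * B := mul_nonneg (by linarith) (by linarith)
        have a2 : 0 ≤ (1 - c) * (y + b1) := mul_nonneg (by linarith) (by linarith)
        linarith
      · have a1 : 0 ≤ (c - 1) * (2 * B - y - b1) := mul_nonneg (by linarith) (by linarith)
        nlinarith
    linarith
  have hb1 : 0 ≤ b1 := by linarith
  have h2 : b1 * (b0 - b1 - d) ≤ b1 * (B - b1 - d) := mul_le_mul_of_nonneg_left (by linarith) hb1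
  have h3 : c * (b0 - b1) ^ 2 ≤ c * (B - b1) ^ 2 := by
    refine mul_le_mul_of_nonneg_left ?_ (by linarith)
    exact pow_le_pow_left₀ (by linarith) (by linarith) 2
  linarith

/-- time of the curve point `q` -/
noncomputable def bs (δ γ q : ℝ) : ℝ := √((1 - δ) ^ 2 / (1 + γ) * bw q)

lemma bs_sq {δ γ q : ℝ} (hγ : 0 < γ) (hq : q < 1) :
    bs δ γ q ^ 2 = (1 - δ) ^ 2 / (1 + γ) * bw q := by
  unfold bs
  have := bw_pos hq
  rw [Real.sq_sqrt (by positivity)]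

lemma bs_pos {δ γ q : ℝ} (hδ : δ < 1) (hγ : 0 < γ) (hq : q < 1) : 0 < bs δ γ q := by
  unfold bs
  have := bw_pos hq
  have : 0 < 1 - δ := by linarith
  exact Real.sqrt_pos.2 (by positivity)

lemma step_lemma {q0 q1 δ γ : ℝ} (h01 : q1 < q0) (h0 : q0 < 1) (h1 : 0 ≤ q1)
    (hδ : δ < 1) (hγ : 0 < γ) (hγ1 : γ ≤ 1) (hr : bw q1 < (1 + γ) * bw q0) :
    ∀ᶠ M : ℝ in atTop, ∀ (ε : ℝ) (Q : ℕ → ℝ), Hyp M ε Q →
      (1 - δ) * bP q0 ≤ Q ⌊bs δ γ q0 * M⌋₊ → (1 - δ) * bP q1 ≤ Q ⌊bs δ γ q1 * M⌋₊ := by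
  obtain ⟨s0, hs0⟩ : ∃ s0, s0 = bs δ γ q0 := ⟨_, rfl⟩
  obtain ⟨s1, hs1⟩ : ∃ s1, s1 = bs δ γ q1 := ⟨_, rfl⟩
  rw [← hs0, ← hs1]
  have p0 : 0 < s0 := by rw [hs0]; exact bs_pos hδ hγ h0
  have p1 : 0 < s1 := by rw [hs1]; exact bs_pos hδ hγ (by linarith)
  have e0 : s0 ^ 2 = (1 - δ) ^ 2 / (1 + γ) * bw q0 := by rw [hs0]; exact bs_sq hγ h0
  have e1 : s1 ^ 2 = (1 - δ) ^ 2 / (1 + γ) * bw q1 := by rw [hs1]; exact bs_sq hγ (by linarith)
  have hw := bw_lt h01 h0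
  have hw0 := bw_pos h0
  have hz : 0 < (1 - δ) ^ 2 / (1 + γ) := by
    have : 0 < 1 - δ := by linarith
    positivity
  have hs01 : s0 < s1 := by
    have : s0 ^ 2 < s1 ^ 2 := by
      rw [e0, e1]; exact mul_lt_mul_of_pos_left hw hz
    exact lt_of_pow_lt_pow_left₀ 2 p1.le this
  have hratio : s1 < 2 * s0 := by
    have : s1 ^ 2 < (2 * s0) ^ 2 := by
      rw [mul_pow, e0, e1]
      have : bw q1 < 4 * bw q0 := by nlinarith
      nlinarith
    exact lt_of_pow_lt_pow_left₀ 2 (by positivity) this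
  have hlim := limit_ineq h01 h0 h1 hδ hγ hr p0 hs01 e0 e1
  obtain ⟨b0, hb0⟩ : ∃ b0, b0 = (1 - δ) * bP q0 := ⟨_, rfl⟩
  obtain ⟨b1, hb1⟩ : ∃ b1, b1 = (1 - δ) * bP q1 := ⟨_, rfl⟩
  rw [← hb0, ← hb1] at hlim ⊢
  have hb1n : 0 ≤ b1 := by rw [hb1]; exact mul_nonneg (by linarith) (bP_nonneg h1)
  have hb10 : b1 ≤ b0 := by
    rw [hb0, hb1]; exact mul_le_mul_of_nonneg_left (bP_le h01.le h0.le h1 hw.le) (by linarith)
  -- limits
  have t0 : Tendsto (fun M : ℝ => (⌊s0 * M⌋₊ : ℝ) / M) atTop (𝓝 s0) :=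
    tendsto_nat_floor_mul_div_atTop p0.le
  have t1 : Tendsto (fun M : ℝ => (⌊s1 * M⌋₊ : ℝ) / M) atTop (𝓝 s1) :=
    tendsto_nat_floor_mul_div_atTop p1.le
  have ti : Tendsto (fun M : ℝ => 1 / M) atTop (𝓝 0) := by
    simpa using tendsto_inv_atTop_zero
  have tl : Tendsto (fun M : ℝ => b1 * (b0 - b1 - 2 * (1 / M))
      + 5/6 * ((⌊s0 * M⌋₊ : ℝ) / M) / ((⌊s1 * M⌋₊ : ℝ) / M - (⌊s0 * M⌋₊ : ℝ) / M) * (b0 - b1) ^ 2)
      atTop (𝓝 (b1 * (b0 - b1 - 2 * 0) + 5/6 * s0 / (s1 - s0) * (b0 - b1) ^ 2)) := by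
    refine Tendsto.add ?_ ?_
    · exact (tendsto_const_nhds.sub (ti.const_mul 2)).const_mul b1
    · refine Tendsto.mul_const _ ?_
      exact (t0.const_mul _).div (t1.sub t0) (by linarith)
  have tr : Tendsto (fun M : ℝ => ((⌊s1 * M⌋₊ : ℝ) / M - (⌊s0 * M⌋₊ : ℝ) / M)
      * ((⌊s1 * M⌋₊ : ℝ) / M + (⌊s0 * M⌋₊ : ℝ) / M + 1 / M) / 2)
      atTop (𝓝 ((s1 - s0) * (s1 + s0 + 0) / 2)) := by
    exact ((t1.sub t0).mul ((t1.add t0).add ti)).div_const _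
  have hlt : (s1 - s0) * (s1 + s0 + 0) / 2
      < b1 * (b0 - b1 - 2 * 0) + 5/6 * s0 / (s1 - s0) * (b0 - b1) ^ 2 := by
    have x1 : (s1 - s0) * (s1 + s0 + 0) / 2 = (s1 ^ 2 - s0 ^ 2) / 2 := by ring
    have x2 : b1 * (b0 - b1 - 2 * 0) + 5/6 * s0 / (s1 - s0) * (b0 - b1) ^ 2
        = b1 * (b0 - b1) + 5/6 * s0 * (b0 - b1) ^ 2 / (s1 - s0) := by ring
    rw [x1, x2]; exact hlim
  have ev1 := tr.eventually_lt tl hlt
  have ev2 : ∀ᶠ M : ℝ in atTop, 0 < (⌊s1 * M⌋₊ : ℝ) / M - (⌊s0 * M⌋₊ : ℝ) / M := by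
    have := (t1.sub t0).eventually (lt_mem_nhds (show (0:ℝ) < s1 - s0 by linarith))
    exact this
  have ev3 : ∀ᶠ M : ℝ in atTop,
      (⌊s1 * M⌋₊ : ℝ) / M - (⌊s0 * M⌋₊ : ℝ) / M < 5/3 * ((⌊s0 * M⌋₊ : ℝ) / M) := by
    exact (t1.sub t0).eventually_lt (t0.const_mul (5/3)) (by linarith)
  have ev4 : ∀ᶠ M : ℝ in atTop, 1 / s0 ≤ M := eventually_ge_atTop _
  filter_upwards [ev1, ev2, ev3, ev4, eventually_gt_atTop (0:ℝ)] with M h1 h2 h3 h4 hM ε Q hQ hQ0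
  by_contra hcon
  push Not at hcon
  obtain ⟨k, hk⟩ : ∃ k, k = ⌊s0 * M⌋₊ := ⟨_, rfl⟩
  obtain ⟨l, hl⟩ : ∃ l, l = ⌊s1 * M⌋₊ := ⟨_, rfl⟩
  rw [← hk] at h1 h2 h3 hQ0
  rw [← hl] at h1 h2 h3 hcon
  have hk1 : 1 ≤ k := by
    rw [hk]; apply Nat.le_floor
    rw [div_le_iff₀ p0] at h4
    push_cast; linarith
  have hkl : k < l := by
    have : (k:ℝ) / M < (l:ℝ) / M := by linarith
    rw [div_lt_div_iff_of_pos_right hM] at this
    exact_mod_cast this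
  obtain ⟨n, hn, rfl⟩ : ∃ n, 1 ≤ n ∧ l = k + n := ⟨l - k, by omega, by omega⟩
  have hn' : (0:ℝ) < n := by exact_mod_cast hn
  have hblock := hQ.block hM hk1 hn
  push_cast at h1 h2 h3
  have e3 : ((k:ℝ) + n) / M - k / M = n / M := by ring
  rw [e3] at h1 h2 h3
  have hc : 1/2 ≤ 5/6 * (k:ℝ) / n := by
    rw [le_div_iff₀ hn']
    have : (n:ℝ) / M < (5/3 * k) / M := by rw [mul_div_assoc]; exact h3
    rw [div_lt_div_iff_of_pos_right hM] at this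
    linarith
  have h5 := block_contra (b0 := b0) (b1 := b1) (y := Q (k+n)) (B := Q k) (d := 2 / M)
    (c := 5/6 * (k:ℝ) / n) (r := (n:ℝ) * (n + 2 * k + 1) / (2 * M ^ 2))
    (hQ.nonneg _ (by omega)) hcon hb10 hQ0 (by positivity) hc (by
      have e4 : 5/6 * (k:ℝ) / n * (Q k - Q (k+n)) ^ 2 = 5/6 * k * (Q k - Q (k+n)) ^ 2 / n := by ring
      rw [e4]; exact hblock)
  have e5 : (n:ℝ) / M * (((k:ℝ) + n) / M + k / M + 1 / M) / 2
      = (n:ℝ) * (n + 2 * k + 1) / (2 * M ^ 2) := by field_simp; ring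
  have e6 : b1 * (b0 - b1 - 2 * (1 / M)) + 5/6 * ((k:ℝ) / M) / ((n:ℝ) / M) * (b0 - b1) ^ 2
      = b1 * (b0 - b1 - 2 / M) + 5/6 * (k:ℝ) / n * (b0 - b1) ^ 2 := by
    field_simp
  rw [e5, e6] at h1
  linarith

lemma bw_lip {q0 q1 : ℝ} (h : q1 ≤ q0) (h0 : q0 ≤ 1) (h1 : 0 ≤ q1) :
    bw q1 - bw q0 ≤ 5 * (q0 - q1) := by
  unfold bw
  obtain ⟨x, hx⟩ : ∃ x, x = 6 - q0 := ⟨_, rfl⟩
  obtain ⟨y, hy⟩ : ∃ y, y = 6 - q1 := ⟨_, rfl⟩
  have e1 : 1 - q0 = x - 5 := by linarith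
  have e2 : 1 - q1 = y - 5 := by linarith
  have e3 : q0 - q1 = y - x := by linarith
  rw [← hx, ← hy, e1, e2, e3]
  have hx5 : 5 ≤ x := by linarith
  have hxy : x ≤ y := by linarith
  have hy6 : y ≤ 6 := by linarith
  have hy4 : y ^ 4 ≤ 1296 := by
    calc y ^ 4 ≤ 6 ^ 4 := pow_le_pow_left₀ (by linarith) hy6 4
      _ = 1296 := by norm_num
  have hd : y ^ 4 - x ^ 4 ≤ 864 * (y - x) := by
    have : y ^ 4 - x ^ 4 = (y - x) * ((y + x) * (y ^ 2 + x ^ 2)) := by ring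
    rw [this, mul_comm 864]
    refine mul_le_mul_of_nonneg_left ?_ (by linarith)
    have a1 : y ^ 2 ≤ 36 := by nlinarith
    have a2 : x ^ 2 ≤ 36 := by nlinarith
    have a3 : y + x ≤ 12 := by linarith
    have a4 : 0 ≤ y + x := by linarith
    nlinarith
  have hd0 : 0 ≤ y ^ 4 - x ^ 4 := by
    have := pow_le_pow_left₀ (by linarith : (0:ℝ) ≤ x) hxy 4
    linarith
  have h3 : (x - 5) * (y ^ 4 - x ^ 4) ≤ 1 * (864 * (y - x)) := by
    exact mul_le_mul (by linarith) hd hd0 (by norm_num)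
  have h4 : (y - x) * y ^ 4 ≤ (y - x) * 1296 := mul_le_mul_of_nonneg_left hy4 (by linarith)
  nlinarith

lemma chain {δ γ qs qe ε : ℝ} (hδ : 0 < δ) (hδ1 : δ < 1) (hγ : 0 < γ) (hγ1 : γ ≤ 1)
    (hqe : 0 ≤ qe) (hq : qe < qs) (hqs : qs < 1)
    (hbase : ε + 2 * bs δ γ qs ≤ δ) :
    ∀ᶠ M : ℝ in atTop, ∀ Q : ℕ → ℝ, Hyp M ε Q →
      (1 - δ) * bP qe ≤ Q ⌊bs δ γ qe * M⌋₊ := by
  have hws := bw_pos hqs
  obtain ⟨N, hN⟩ := exists_nat_gt (5 * (qs - qe) / (γ * bw qs))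
  have hN0 : (0:ℝ) < N := by
    refine lt_of_le_of_lt ?_ hN
    have : 0 < qs - qe := by linarith
    positivity
  obtain ⟨h, hh⟩ : ∃ h, h = (qs - qe) / N := ⟨_, rfl⟩
  have hhpos : 0 < h := by
    rw [hh]; exact div_pos (by linarith) hN0
  have hh5 : 5 * h < γ * bw qs := by
    rw [div_lt_iff₀ (by positivity)] at hN
    rw [hh, ← mul_div_assoc, div_lt_iff₀ hN0]
    linarith
  have hNh : N * h = qs - qe := by rw [hh]; field_simp
  have claim : ∀ i : ℕ, i ≤ N → ∀ᶠ M : ℝ in atTop, ∀ Q : ℕ → ℝ, Hyp M ε Q →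
      (1 - δ) * bP (qs - i * h) ≤ Q ⌊bs δ γ (qs - i * h) * M⌋₊ := by
    intro i
    induction i with
    | zero =>
      intro _
      simp only [Nat.cast_zero, zero_mul, sub_zero]
      have hs := bs_pos (δ := δ) (γ := γ) hδ1 hγ hqs
      filter_upwards [eventually_ge_atTop (1 / bs δ γ qs), eventually_gt_atTop (0:ℝ)] with M hM hM0 Q hQ
      obtain ⟨k, hk⟩ : ∃ k, k = ⌊bs δ γ qs * M⌋₊ := ⟨_, rfl⟩
      have hkle : (k:ℝ) ≤ bs δ γ qs * M := by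
        rw [hk]; exact Nat.floor_le (by positivity)
      have hk1 : 1 ≤ k := by
        rw [hk]; apply Nat.le_floor
        rw [div_le_iff₀ hs] at hM
        push_cast; linarith
      rw [← hk]
      obtain ⟨j, rfl⟩ : ∃ j, k = j + 1 := ⟨k - 1, by omega⟩
      have h1 := hQ.lin_le hM0 j
      have h2 : 2 * (j:ℝ) / M ≤ 2 * bs δ γ qs := by
        rw [div_le_iff₀ hM0]
        push_cast at hkle
        nlinarith
      have h3 : (1 - δ) * bP qs ≤ (1 - δ) * 1 := by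
        refine mul_le_mul_of_nonneg_left ?_ (by linarith)
        have : bP 1 = 1 := by unfold bP; norm_num
        rw [← this]
        refine bP_le hqs.le (le_refl _) (by linarith) ?_
        have : bw 1 = 0 := by unfold bw; norm_num
        rw [this]; exact hws.le
      linarith
    | succ i ih =>
      intro hi
      have ih' := ih (by omega)
      have hi' : ((i:ℝ) + 1) ≤ N := by exact_mod_cast hi
      have hi0 : (0:ℝ) ≤ i := Nat.cast_nonneg i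
      have g1 : qs - (i+1) * h < qs - i * h := by nlinarith
      have g2 : qs - i * h < 1 := by nlinarith
      have g3 : 0 ≤ qs - (i+1) * h := by
        have : (i+1) * h ≤ N * h := mul_le_mul_of_nonneg_right hi' hhpos.le
        linarith
      have g4 : bw qs ≤ bw (qs - i * h) := by
        rcases eq_or_lt_of_le hi0 with h0 | h0
        · rw [← h0]; simp
        · exact (bw_lt (by nlinarith) hqs).le
      have g5 : bw (qs - (i+1) * h) < (1 + γ) * bw (qs - i * h) := by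
        have := bw_lip g1.le g2.le g3
        nlinarith
      have hst := step_lemma g1 g2 g3 hδ1 hγ hγ1 g5
      filter_upwards [ih', hst] with M h1 h2 Q hQ
      have := h2 ε Q hQ (h1 Q hQ)
      push_cast
      exact this
  have := claim N (le_refl _)
  rw [hNh] at this
  simpa using this

/-- the discrete differential inequality forces positivity up to time `(6/5)^(5/2)` -/
theorem discrete_bound {c : ℝ} (hc : c < (6/5) ^ 5) :
    ∃ ε : ℝ, 0 < ε ∧ ∀ᶠ M : ℝ in atTop, ∀ Q : ℕ → ℝ, Hyp M ε Q →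
      ∀ k : ℕ, 1 ≤ k → (k:ℝ) ^ 2 ≤ c * M ^ 2 → 0 < Q k := by
  -- choose the parameter
  have hcont : ContinuousAt (fun x : ℝ => (1 - x) ^ 2 / (1 + x) * bw x) 0 := by
    unfold bw
    refine ContinuousAt.mul (ContinuousAt.div ?_ ?_ (by norm_num)) ?_ <;> fun_prop
  have hval : c < (fun x : ℝ => (1 - x) ^ 2 / (1 + x) * bw x) 0 := by
    simp only [bw]; norm_num; norm_num at hc; linarith
  have hev := hcont.eventually (lt_mem_nhds hval)
  obtain ⟨x, hx0, hx1, hx⟩ : ∃ x : ℝ, 0 < x ∧ x < 1/2 ∧ c < (1 - x) ^ 2 / (1 + x) * bw x := by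
    rw [Metric.eventually_nhds_iff] at hev
    obtain ⟨r, hr, hev⟩ := hev
    refine ⟨min (r/2) (1/4), by positivity, by
      exact lt_of_le_of_lt (min_le_right _ _) (by norm_num), ?_⟩
    apply hev
    rw [Real.dist_eq, sub_zero, abs_of_pos (by positivity)]
    exact lt_of_le_of_lt (min_le_left _ _) (by linarith)
  -- choose the starting point
  have hcont2 : ContinuousAt (fun q : ℝ => bs x x q) 1 := by
    unfold bs bw
    fun_prop
  have hval2 : (fun q : ℝ => bs x x q) 1 < x / 4 := by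
    simp only [bs, bw]; norm_num; exact hx0
  have hev2 := hcont2.eventually (gt_mem_nhds hval2)
  obtain ⟨qs, hqs0, hqs1, hqs⟩ : ∃ qs : ℝ, x < qs ∧ qs < 1 ∧ bs x x qs < x / 4 := by
    rw [Metric.eventually_nhds_iff] at hev2
    obtain ⟨r, hr, hev2⟩ := hev2
    refine ⟨1 - min (r/2) (1/4), ?_, ?_, ?_⟩
    · have := min_le_right (r/2) (1/4 : ℝ)
      linarith
    · have : 0 < min (r/2) (1/4 : ℝ) := by positivity
      linarith
    · apply hev2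
      have h1 : 0 < min (r/2) (1/4 : ℝ) := by positivity
      rw [Real.dist_eq, show 1 - min (r/2) (1/4 : ℝ) - 1 = - min (r/2) (1/4) by ring, abs_neg,
        abs_of_pos h1]
      exact lt_of_le_of_lt (min_le_left _ _) (by linarith)
  refine ⟨x / 2, by positivity, ?_⟩
  have hch := chain (δ := x) (γ := x) (qs := qs) (qe := x) (ε := x / 2) hx0 (by linarith) hx0
    (by linarith) hx0.le hqs0 hqs1 (by linarith)
  filter_upwards [hch, eventually_gt_atTop (0:ℝ)] with M hM hM0 Q hQ k hk hkc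
  have h1 := hM Q hQ
  have hbs := bs_pos (δ := x) (γ := x) (q := x) (by linarith) hx0 (by linarith)
  have h2 : (k:ℝ) ≤ bs x x x * M := by
    have : (k:ℝ) ^ 2 ≤ (bs x x x * M) ^ 2 := by
      rw [mul_pow, bs_sq hx0 (by linarith)]
      refine hkc.trans ?_
      exact mul_le_mul_of_nonneg_right hx.le (by positivity)
    exact le_of_sq_le_sq this (by positivity)
  have h3 : k ≤ ⌊bs x x x * M⌋₊ := Nat.le_floor h2
  have h4 := hQ.anti_le hk h3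
  have h5 : 0 < (1 - x) * bP x := by
    unfold bP
    have : 0 < 1 - x := by linarith
    have : 0 < 6 - x := by linarith
    positivity
  linarith

end Pool.Agent.TuranLarge
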