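import Mathlib

set_option autoImplicit false

namespace Pool.Agent.TuranLarge
open Finset

variable {V : Type*} [Fintype V] [DecidableEq V]

/-- `S` contains no member of `H`. -/
def Ind (H : Finset (Finset V)) (S : Finset V) : Prop := ∀ e ∈ H, ¬ e ⊆ S

instance decInd (H : Finset (Finset V)) (S : Finset V) : Decidable (Ind H S) := by
  unfold Ind; infer_instance

/-- independent sets of size `k` -/
def I (H : Finset (Finset V)) (k : ℕ) : Finset (Finset V) :=
  univ.filter (fun S => S.card = k ∧ Ind H S)

/-- free vertices of `S` -/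
def F (H : Finset (Finset V)) (S : Finset V) : Finset V :=
  univ.filter (fun y => y ∉ S ∧ Ind H (insert y S))

/-- vertices that become free when `x` is removed -/
def K (H : Finset (Finset V)) (S : Finset V) (x : V) : Finset V := F H (S.erase x) \ F H S

/-- elements of `S` whose removal frees `y` -/
def C (H : Finset (Finset V)) (S : Finset V) (y : V) : Finset V :=
  S.filter (fun x => y ∈ F H (S.erase x))

/-- the edge relation together with all degenerate triples -/
def E (H : Finset (Finset V)) (x y z : V) : Prop :=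
  x = y ∨ x = z ∨ y = z ∨ ({x, y, z} : Finset V) ∈ H

instance decE (H : Finset (Finset V)) (x y z : V) : Decidable (E H x y z) := by
  unfold E; infer_instance

/-- neighbours of the pair `y z` inside `S` -/
def nb (H : Finset (Finset V)) (S : Finset V) (y z : V) : Finset V :=
  S.filter (fun x => E H x y z)

variable {H : Finset (Finset V)}

lemma mem_I {k : ℕ} {S : Finset V} : S ∈ I H k ↔ S.card = k ∧ Ind H S := by
  simp [I]

lemma mem_F {S : Finset V} {y : V} : y ∈ F H S ↔ y ∉ S ∧ Ind H (insert y S) := by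
  simp [F]

lemma mem_K {S : Finset V} {x y : V} : y ∈ K H S x ↔ y ∈ F H (S.erase x) ∧ y ∉ F H S := by
  simp [K]

lemma mem_C {S : Finset V} {x y : V} : x ∈ C H S y ↔ x ∈ S ∧ y ∈ F H (S.erase x) := by
  simp [C]

lemma mem_nb {S : Finset V} {x y z : V} : x ∈ nb H S y z ↔ x ∈ S ∧ E H x y z := by
  simp [nb]

lemma Ind.mono {S T : Finset V} (hT : Ind H T) (h : S ⊆ T) : Ind H S :=
  fun e he hs => hT e he (hs.trans h)

lemma F_anti {R S : Finset V} (h : R ⊆ S) : F H S ⊆ F H R := by
  intro y hy
  rw [mem_F] at hy ⊢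
  exact ⟨fun hR => hy.1 (h hR), hy.2.mono (insert_subset_insert y h)⟩

lemma E_comm23 {x y z : V} : E H x y z ↔ E H x z y := by
  unfold E
  have : ({x, y, z} : Finset V) = {x, z, y} := by ext a; simp; tauto
  rw [this]
  constructor
  · rintro (h | h | h | h)
    · exact Or.inr (Or.inl h)
    · exact Or.inl h
    · exact Or.inr (Or.inr (Or.inl h.symm))
    · exact Or.inr (Or.inr (Or.inr h))
  · rintro (h | h | h | h)
    · exact Or.inr (Or.inl h)
    · exact Or.inl h
    · exact Or.inr (Or.inr (Or.inl h.symm))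
    · exact Or.inr (Or.inr (Or.inr h))

lemma nb_comm (S : Finset V) (y z : V) : nb H S y z = nb H S z y := by
  ext x
  rw [mem_nb, mem_nb, E_comm23]

/-- exchange of sums -/
lemma sum_I_succ {M : Type*} [AddCommMonoid M] (k : ℕ) (g : Finset V → V → M) :
    ∑ S ∈ I H (k+1), ∑ x ∈ S, g S x = ∑ R ∈ I H k, ∑ x ∈ F H R, g (insert x R) x := by
  rw [Finset.sum_sigma', Finset.sum_sigma']
  refine Finset.sum_bij' (fun p _ => ⟨p.1.erase p.2, p.2⟩) (fun p _ => ⟨insert p.2 p.1, p.2⟩)
    ?_ ?_ ?_ ?_ ?_
  · rintro ⟨S, x⟩ h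
    simp only [mem_sigma, mem_I, mem_F] at h ⊢
    obtain ⟨⟨h1, h2⟩, h3⟩ := h
    refine ⟨⟨?_, h2.mono (erase_subset _ _)⟩, notMem_erase _ _, ?_⟩
    · rw [card_erase_of_mem h3, h1]; rfl
    · rw [insert_erase h3]; exact h2
  · rintro ⟨R, x⟩ h
    simp only [mem_sigma, mem_I, mem_F] at h ⊢
    obtain ⟨⟨h1, h2⟩, h3, h4⟩ := h
    refine ⟨⟨?_, h4⟩, mem_insert_self _ _⟩
    rw [card_insert_of_notMem h3, h1]
  · rintro ⟨S, x⟩ h
    simp only [mem_sigma, mem_I] at h
    simp only [insert_erase h.2]
  · rintro ⟨R, x⟩ h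
    simp only [mem_sigma, mem_I, mem_F] at h
    simp only [erase_insert h.2.1]
  · rintro ⟨S, x⟩ h
    simp only [mem_sigma, mem_I] at h
    simp only [insert_erase h.2]

/-- If `y, z` are free for `R`, distinct and cannot be added together, some `x ∈ R` forms an edge. -/
lemma exists_edge (hH : ∀ e ∈ H, e.card = 3) {R : Finset V} {y z : V} (hy : y ∈ F H R)
    (hz : z ∈ F H R) (hyz : y ≠ z) (hn : ¬ Ind H (insert y (insert z R))) :
    ∃ x ∈ R, ({x, y, z} : Finset V) ∈ H := by
  unfold Ind at hn
  push Not at hn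
  obtain ⟨e, he, hs⟩ := hn
  rw [mem_F] at hy hz
  have hye : y ∈ e := by
    by_contra h
    refine hz.2 e he (fun a ha => ?_)
    rcases mem_insert.1 (hs ha) with rfl | h'
    · exact absurd ha h
    · exact h'
  have hze : z ∈ e := by
    by_contra h
    refine hy.2 e he (fun a ha => ?_)
    rcases mem_insert.1 (hs ha) with rfl | h'
    · exact mem_insert_self _ _
    · rcases mem_insert.1 h' with rfl | h''
      · exact absurd ha h
      · exact mem_insert_of_mem h''
  have h3 := hH e he
  obtain ⟨x, hx⟩ : ((e.erase y).erase z).Nonempty := by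
    rw [← card_pos, card_erase_of_mem (mem_erase.2 ⟨hyz.symm, hze⟩), card_erase_of_mem hye, h3]
    norm_num
  simp only [mem_erase] at hx
  have hxR : x ∈ R := by
    rcases mem_insert.1 (hs hx.2.2) with rfl | h'
    · exact absurd rfl hx.2.1
    · rcases mem_insert.1 h' with rfl | h''
      · exact absurd rfl hx.1
      · exact h''
  refine ⟨x, hxR, ?_⟩
  have : ({x, y, z} : Finset V) = e := by
    refine eq_of_subset_of_card_le ?_ ?_
    · intro a ha
      simp only [mem_insert, mem_singleton] at ha
      rcases ha with rfl | rfl | rfl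
      · exact hx.2.2
      · exact hye
      · exact hze
    · rw [h3, card_insert_of_notMem, card_insert_of_notMem, card_singleton]
      · simpa using hyz
      · simp only [mem_insert, mem_singleton, not_or]; exact ⟨hx.2.1, hx.1⟩
  rw [this]; exact he

/-- If `x ∈ R` with `{x,y,z}` an edge then `y, z` can't be added together. -/
lemma not_ind_of_edge {R : Finset V} {x y z : V} (hx : x ∈ R)
    (h : ({x, y, z} : Finset V) ∈ H) : ¬ Ind H (insert y (insert z R)) := by
  intro hI
  refine hI _ h (fun a ha => ?_)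
  simp only [mem_insert, mem_singleton] at ha ⊢
  rcases ha with rfl | rfl | rfl
  · exact Or.inr (Or.inr hx)
  · exact Or.inl rfl
  · exact Or.inr (Or.inl rfl)

end Pool.Agent.TuranLarge
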