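import Mathlib
import Pool.Agent.TuranLarge.Basic

set_option autoImplicit false

namespace Pool.Agent.TuranLarge
open Finset

variable {V : Type*} [Fintype V] [DecidableEq V]

/-- common removal elements of a pair -/
def D (H : Finset (Finset V)) (S : Finset V) (y z : V) : Finset V :=
  S.filter (fun x => y ∈ K H S x ∧ z ∈ K H S x)

/-- the exceptional pairs (type I) -/
def TI (H : Finset (Finset V)) (S : Finset V) (y z : V) : Prop :=
  (D H S y z).card = 2 ∧ (nb H S y z).card = 1 ∧ Disjoint (nb H S y z) (D H S y z)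

instance decTI (H : Finset (Finset V)) (S : Finset V) (y z : V) : Decidable (TI H S y z) := by
  unfold TI; infer_instance

/-- open at `x` -/
def OP (H : Finset (Finset V)) (S : Finset V) (x y z : V) : Prop :=
  y ∈ K H S x ∧ z ∈ K H S x ∧ y ≠ z ∧ Ind H (insert y (insert z (S.erase x)))

instance decOP (H : Finset (Finset V)) (S : Finset V) (x y z : V) : Decidable (OP H S x y z) := by
  unfold OP; infer_instance

variable {H : Finset (Finset V)}

lemma mem_D {S : Finset V} {x y z : V} :
    x ∈ D H S y z ↔ x ∈ S ∧ y ∈ K H S x ∧ z ∈ K H S x := by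
  simp [D]

lemma D_comm (S : Finset V) (y z : V) : D H S y z = D H S z y := by
  ext x; rw [mem_D, mem_D]; tauto

lemma D_sub_C (S : Finset V) (y z : V) : D H S y z ⊆ C H S y := by
  intro x hx
  rw [mem_D] at hx
  rw [mem_C]
  exact ⟨hx.1, (mem_K.1 hx.2.1).1⟩

/-- structure of `C` -/
lemma C_sub_edge {S : Finset V} (hS : Ind H S) {y : V} (hyS : y ∉ S)
    {e : Finset V} (he : e ∈ H) (hes : e ⊆ insert y S) : y ∈ e ∧ C H S y ⊆ e.erase y := by
  have hye : y ∈ e := by
    by_contra h
    refine hS e he (fun a ha => ?_)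
    rcases mem_insert.1 (hes ha) with rfl | h'
    · exact absurd ha h
    · exact h'
  refine ⟨hye, fun x hx => ?_⟩
  rw [mem_C, mem_F] at hx
  rw [mem_erase]
  refine ⟨fun h => hyS (h ▸ hx.1), ?_⟩
  by_contra hxe
  refine hx.2.2 e he (fun a ha => ?_)
  rcases mem_insert.1 (hes ha) with rfl | h'
  · exact mem_insert_self _ _
  · refine mem_insert_of_mem (mem_erase.2 ⟨fun h => hxe (h ▸ ha), h'⟩)

lemma C_card_le (hH : ∀ e ∈ H, e.card = 3) {S : Finset V} (hS : Ind H S) {y : V}
    (hy : y ∉ F H S) : (C H S y).card ≤ 2 := by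
  by_cases hyS : y ∈ S
  · have : C H S y ⊆ {y} := by
      intro x hx
      rw [mem_C, mem_F] at hx
      rw [mem_singleton]
      by_contra h
      exact hx.2.1 (mem_erase.2 ⟨fun h' => h h'.symm, hyS⟩)
    exact (card_le_card this).trans (by simp)
  · rw [mem_F] at hy
    have : ¬ Ind H (insert y S) := fun h => hy ⟨hyS, h⟩
    unfold Ind at this
    push Not at this
    obtain ⟨e, he, hes⟩ := this
    obtain ⟨h1, h2⟩ := C_sub_edge hS hyS he hes
    refine (card_le_card h2).trans ?_
    rw [card_erase_of_mem h1, hH e he]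

/-- if `C` has two elements, `y` is in a unique edge in `insert y S`. -/
lemma edge_unique (hH : ∀ e ∈ H, e.card = 3) {S : Finset V} (hS : Ind H S) {y : V}
    (hy : y ∉ F H S) (hC : (C H S y).card = 2) :
    y ∉ S ∧ insert y (C H S y) ∈ H ∧ ∀ e ∈ H, e ⊆ insert y S → e = insert y (C H S y) := by
  have hyS : y ∉ S := by
    intro hyS
    have : C H S y ⊆ {y} := by
      intro x hx
      rw [mem_C, mem_F] at hx
      rw [mem_singleton]
      by_contra h
      exact hx.2.1 (mem_erase.2 ⟨fun h' => h h'.symm, hyS⟩)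
    have := card_le_card this
    rw [hC, card_singleton] at this
    omega
  have huniq : ∀ e ∈ H, e ⊆ insert y S → e = insert y (C H S y) := by
    intro e he hes
    obtain ⟨h1, h2⟩ := C_sub_edge hS hyS he hes
    have h3 : C H S y = e.erase y := by
      refine eq_of_subset_of_card_le h2 ?_
      rw [card_erase_of_mem h1, hH e he, hC]
    rw [h3, insert_erase h1]
  refine ⟨hyS, ?_, huniq⟩
  rw [mem_F] at hy
  have : ¬ Ind H (insert y S) := fun h => hy ⟨hyS, h⟩
  unfold Ind at this
  push Not at this
  obtain ⟨e, he, hes⟩ := this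
  rw [← huniq e he hes]
  exact he

lemma D_card_le (hH : ∀ e ∈ H, e.card = 3) {S : Finset V} (hS : Ind H S) (y z : V) :
    (D H S y z).card ≤ 2 := by
  by_cases hy : y ∈ F H S
  · have : D H S y z = ∅ := by
      ext x
      rw [mem_D, mem_K]
      simp [hy]
    rw [this]; simp
  · exact (card_le_card (D_sub_C S y z)).trans (C_card_le hH hS hy)

lemma nb_self {S : Finset V} {y : V} : nb H S y y = S := by
  ext x
  rw [mem_nb]
  unfold E
  simp

/-- closedness gives a neighbour -/
lemma closed_nb (hH : ∀ e ∈ H, e.card = 3) {S : Finset V} {x y z : V} (hy : y ∈ F H (S.erase x))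
    (hz : z ∈ F H (S.erase x)) (hyz : y ≠ z)
    (hn : ¬ Ind H (insert y (insert z (S.erase x)))) : ∃ w ∈ nb H S y z, w ≠ x := by
  obtain ⟨w, hw, he⟩ := exists_edge hH hy hz hyz hn
  rw [mem_erase] at hw
  exact ⟨w, mem_nb.2 ⟨hw.2, Or.inr (Or.inr (Or.inr he))⟩, hw.1⟩

lemma D_card_ineq (hH : ∀ e ∈ H, e.card = 3) {k : ℕ} (hk : 2 ≤ k) {S : Finset V}
    (hS : S ∈ I H k) (y z : V) :
    (D H S y z).card ≤ (nb H S y z).card + (S.filter (fun x => OP H S x y z)).card
      + (if TI H S y z then 1 else 0) := by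
  rw [mem_I] at hS
  by_cases hyz : y = z
  · subst hyz
    have h1 := D_card_le hH hS.2 y y
    rw [nb_self, hS.1]
    omega
  have hopen : ∀ x ∈ D H S y z, x ∉ S.filter (fun x => OP H S x y z) →
      ∃ w ∈ nb H S y z, w ≠ x := by
    intro x hx hxo
    rw [mem_D] at hx
    rw [mem_filter, not_and] at hxo
    have h2 := hxo hx.1
    unfold OP at h2
    have h3 : ¬ Ind H (insert y (insert z (S.erase x))) := fun h => h2 ⟨hx.2.1, hx.2.2, hyz, h⟩
    exact closed_nb hH (mem_K.1 hx.2.1).1 (mem_K.1 hx.2.2).1 hyz h3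
  set O := S.filter (fun x => OP H S x y z) with hO
  have hOD : O ⊆ D H S y z := by
    intro x hx
    rw [hO, mem_filter] at hx
    exact mem_D.2 ⟨hx.1, hx.2.1, hx.2.2.1⟩
  have hD2 := D_card_le hH hS.2 y z
  by_cases hnb : nb H S y z = ∅
  · -- everything open
    have : D H S y z ⊆ O := by
      intro x hx
      by_contra h
      obtain ⟨w, hw, -⟩ := hopen x hx h
      rw [hnb] at hw
      exact absurd hw (notMem_empty _)
    have := card_le_card this
    omega
  · have hnb1 : 1 ≤ (nb H S y z).card := card_pos.2 (nonempty_iff_ne_empty.2 hnb)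
    by_cases h2 : 2 ≤ (nb H S y z).card
    · omega
    have hnbc : (nb H S y z).card = 1 := by omega
    by_cases hO1 : 1 ≤ O.card
    · omega
    have hO0 : O = ∅ := by
      rw [← card_eq_zero]; omega
    by_cases hTI : TI H S y z
    · rw [if_pos hTI]; omega
    · have : (D H S y z).card ≠ 2 := by
        intro h
        apply hTI
        refine ⟨h, hnbc, ?_⟩
        obtain ⟨w, hw⟩ := card_eq_one.1 hnbc
        rw [hw, disjoint_singleton_left]
        intro hwD
        obtain ⟨w', hw', hne⟩ := hopen w hwD (by rw [hO0]; exact notMem_empty _)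
        rw [hw, mem_singleton] at hw'
        exact hne hw'
      omega

/-- the pointwise inequality for a pair `(y,z)` -/
lemma pair_ineq (hH : ∀ e ∈ H, e.card = 3) {k : ℕ} (hk : 2 ≤ k) {S : Finset V}
    (hS : S ∈ I H k) (y z : V) :
    (if y ∈ F H S ∧ z ∈ F H S ∧ (nb H S y z).Nonempty then 1 else 0)
      + (if y ∈ F H S ∧ z ∉ F H S ∧ (nb H S y z).Nonempty then 1 else 0)
      + (if y ∉ F H S ∧ z ∈ F H S ∧ (nb H S y z).Nonempty then 1 else 0)
      + (D H S y z).card
    ≤ (nb H S y z).card + (S.filter (fun x => OP H S x y z)).card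
      + (if TI H S y z then 1 else 0) := by
  have hempty : (y ∈ F H S ∨ z ∈ F H S) → D H S y z = ∅ := by
    intro h
    ext x
    rw [mem_D, mem_K, mem_K]
    rcases h with h | h <;> simp [h]
  have hpos : (nb H S y z).Nonempty → 1 ≤ (nb H S y z).card := fun h => card_pos.2 h
  by_cases hy : y ∈ F H S
  · rw [hempty (Or.inl hy)]
    by_cases hz : z ∈ F H S
    · by_cases hn : (nb H S y z).Nonempty
      · have := hpos hn
        simp only [hy, hz, hn]
        simp
        omega
      · simp [hn]
    · by_cases hn : (nb H S y z).Nonempty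
      · have := hpos hn
        simp only [hy, hz, hn]
        simp
        omega
      · simp [hn]
  · by_cases hz : z ∈ F H S
    · rw [hempty (Or.inr hz)]
      by_cases hn : (nb H S y z).Nonempty
      · have := hpos hn
        simp only [hy, hz, hn]
        simp
        omega
      · simp [hn]
    · have := D_card_ineq hH hk hS y z
      simp only [hy, hz]
      simpa using this

end Pool.Agent.TuranLarge
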