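import Mathlib
import Pool.Agent.TuranLarge.Pairs

set_option autoImplicit false

namespace Pool.Agent.TuranLarge
open Finset

variable {V : Type*} [Fintype V] [DecidableEq V]

/-- number of independent `k`-sets -/
def N (H : Finset (Finset V)) (k : ℕ) : ℕ := (I H k).card

/-- total size of the `K`'s -/
def A (H : Finset (Finset V)) (k : ℕ) : ℕ := ∑ S ∈ I H k, ∑ x ∈ S, (K H S x).card

/-- total squared size of the `K`'s -/
def X (H : Finset (Finset V)) (k : ℕ) : ℕ := ∑ S ∈ I H k, ∑ x ∈ S, (K H S x).card ^ 2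

/-- degree with degenerate triples -/
def deg (H : Finset (Finset V)) (x : V) : ℕ := ∑ y, ∑ z, if E H x y z then 1 else 0

variable {H : Finset (Finset V)}

lemma sum_nb (S : Finset V) : ∑ y, ∑ z, (nb H S y z).card = ∑ x ∈ S, deg H x := by
  unfold deg nb
  simp_rw [card_filter]
  rw [Finset.sum_comm' (s := univ) (t := fun _ => univ) (t' := univ) (s' := fun _ => univ)
    (by simp)]
  calc ∑ y : V, ∑ x : V, ∑ i ∈ S, (if E H i x y then 1 else 0)
      = ∑ y : V, ∑ i ∈ S, ∑ x : V, (if E H i x y then 1 else 0) := by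
        refine sum_congr rfl (fun y _ => ?_)
        rw [Finset.sum_comm]
    _ = ∑ i ∈ S, ∑ y : V, ∑ x : V, (if E H i x y then 1 else 0) := by
        rw [Finset.sum_comm]
    _ = ∑ i ∈ S, ∑ x : V, ∑ y : V, (if E H i x y then 1 else 0) := by
        refine sum_congr rfl (fun i _ => ?_)
        rw [Finset.sum_comm]

lemma sum_D (S : Finset V) : ∑ y, ∑ z, (D H S y z).card = ∑ x ∈ S, (K H S x).card ^ 2 := by
  unfold D
  simp_rw [card_filter]
  calc ∑ y : V, ∑ z : V, ∑ x ∈ S, (if y ∈ K H S x ∧ z ∈ K H S x then 1 else 0)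
      = ∑ y : V, ∑ x ∈ S, ∑ z : V, (if y ∈ K H S x ∧ z ∈ K H S x then 1 else 0) := by
        refine sum_congr rfl (fun y _ => ?_)
        rw [Finset.sum_comm]
    _ = ∑ x ∈ S, ∑ y : V, ∑ z : V, (if y ∈ K H S x ∧ z ∈ K H S x then 1 else 0) := by
        rw [Finset.sum_comm]
    _ = ∑ x ∈ S, (K H S x).card ^ 2 := by
        refine sum_congr rfl (fun x _ => ?_)
        have : ∀ y z : V, (if y ∈ K H S x ∧ z ∈ K H S x then 1 else 0)
            = (if y ∈ K H S x then 1 else 0) * (if z ∈ K H S x then 1 else 0) := by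
          intro y z
          by_cases h1 : y ∈ K H S x <;> by_cases h2 : z ∈ K H S x <;> simp [h1, h2]
        simp_rw [this, ← mul_sum, ← sum_mul]
        simp [sq]

lemma K_insert {R : Finset V} {x : V} (hx : x ∉ R) :
    K H (insert x R) x = F H R \ F H (insert x R) := by
  unfold K
  rw [erase_insert hx]

/-- not being free for `insert y S` while free for `S` -/
lemma adj_cases {S : Finset V} {y z : V} (hz : z ∈ F H S)
    (hn : z ∉ F H (insert y S)) : z = y ∨ ¬ Ind H (insert z (insert y S)) := by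
  rw [mem_F] at hz hn
  by_cases h : z = y
  · exact Or.inl h
  · right
    intro hI
    exact hn ⟨by simp [h, hz.1], hI⟩

lemma adj_nb (hH : ∀ e ∈ H, e.card = 3) {S : Finset V} (hS : S.Nonempty) {y z : V}
    (hy : y ∈ F H S) (hz : z ∈ F H S) (hn : z ∉ F H (insert y S)) : (nb H S y z).Nonempty := by
  rcases adj_cases hz hn with rfl | h
  · rw [nb_self]; exact hS
  · by_cases hyz : z = y
    · subst hyz; rw [nb_self]; exact hS
    · obtain ⟨w, hw, he⟩ := exists_edge hH hz hy hyz h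
      rw [nb_comm]
      exact ⟨w, mem_nb.2 ⟨hw, Or.inr (Or.inr (Or.inr he))⟩⟩

lemma FF_ge (hH : ∀ e ∈ H, e.card = 3) {k : ℕ} (hk : 1 ≤ k) :
    A H (k+1) ≤ ∑ S ∈ I H k, ∑ y, ∑ z,
      (if y ∈ F H S ∧ z ∈ F H S ∧ (nb H S y z).Nonempty then 1 else 0) := by
  unfold A
  rw [sum_I_succ k (fun S x => (K H S x).card)]
  refine sum_le_sum (fun S hS => ?_)
  rw [mem_I] at hS
  have hSne : S.Nonempty := by rw [← card_pos]; omega
  rw [← Finset.sum_subset (subset_univ (F H S)) (fun y _ hy => by simp [hy])]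
  refine sum_le_sum (fun y hy => ?_)
  rw [K_insert (mem_F.1 hy).1, ← card_filter]
  refine card_le_card (fun z hz => ?_)
  rw [mem_sdiff] at hz
  rw [mem_filter]
  exact ⟨mem_univ _, hy, hz.1, adj_nb hH hSne hy hz.1 hz.2⟩

/-- swapping the roles of first and third coordinates -/
lemma sum_swap13 (A' : Finset V) (f g : V → V → V → ℕ)
    (h : ∀ x ∈ A', ∀ y z, f x y z ≤ if z ∈ A' then g z y x else 0) :
    ∑ x ∈ A', ∑ y, ∑ z, f x y z ≤ ∑ w ∈ A', ∑ y, ∑ x, g w y x := by
  calc ∑ x ∈ A', ∑ y, ∑ z, f x y z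
      ≤ ∑ x ∈ A', ∑ y, ∑ z, (if z ∈ A' then g z y x else 0) :=
        sum_le_sum (fun x hx => sum_le_sum (fun y _ => sum_le_sum (fun z _ => h x hx y z)))
    _ ≤ ∑ x, ∑ y, ∑ z, (if z ∈ A' then g z y x else 0) :=
        sum_le_univ_sum_of_nonneg (fun x => Nat.zero_le _)
    _ = ∑ x, ∑ z, ∑ y, (if z ∈ A' then g z y x else 0) := by
        refine sum_congr rfl (fun x _ => ?_)
        rw [Finset.sum_comm]
    _ = ∑ z, ∑ x, ∑ y, (if z ∈ A' then g z y x else 0) := by rw [Finset.sum_comm]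
    _ = ∑ z, (if z ∈ A' then ∑ y, ∑ x, g z y x else 0) := by
        refine sum_congr rfl (fun z _ => ?_)
        by_cases hz : z ∈ A'
        · simp only [hz, if_true]
          rw [Finset.sum_comm]
        · simp [hz]
    _ = ∑ w ∈ A', ∑ y, ∑ x, g w y x := by
        rw [Finset.sum_ite_mem, Finset.univ_inter]

/-- swapping the roles of the first and second coordinates -/
lemma sum_swap12 (A' : Finset V) (f g : V → V → V → ℕ)
    (h : ∀ x ∈ A', ∀ y z, f x y z ≤ if y ∈ A' then g y x z else 0) :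
    ∑ x ∈ A', ∑ y, ∑ z, f x y z ≤ ∑ w ∈ A', ∑ y, ∑ x, g w y x := by
  calc ∑ x ∈ A', ∑ y, ∑ z, f x y z
      ≤ ∑ x ∈ A', ∑ y, ∑ z, (if y ∈ A' then g y x z else 0) :=
        sum_le_sum (fun x hx => sum_le_sum (fun y _ => sum_le_sum (fun z _ => h x hx y z)))
    _ ≤ ∑ x, ∑ y, ∑ z, (if y ∈ A' then g y x z else 0) :=
        sum_le_univ_sum_of_nonneg (fun x => Nat.zero_le _)
    _ = ∑ y, ∑ x, ∑ z, (if y ∈ A' then g y x z else 0) := by rw [Finset.sum_comm]
    _ = ∑ y, (if y ∈ A' then ∑ x, ∑ z, g y x z else 0) := by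
        refine sum_congr rfl (fun y _ => ?_)
        by_cases hz : y ∈ A'
        · simp only [hz, if_true]
        · simp [hz]
    _ = ∑ w ∈ A', ∑ y, ∑ x, g w y x := by
        rw [Finset.sum_ite_mem, Finset.univ_inter]

lemma O_le (hH : ∀ e ∈ H, e.card = 3) (k : ℕ) :
    ∑ S ∈ I H (k+1), ∑ y, ∑ z, (S.filter (fun x => OP H S x y z)).card
    ≤ 2 * ∑ S ∈ I H (k+1), ∑ y, ∑ z,
      (if y ∈ F H S ∧ z ∉ F H S ∧ (nb H S y z).Nonempty then 1 else 0) := by
  have h1 : ∀ S : Finset V, ∑ y, ∑ z, (S.filter (fun x => OP H S x y z)).card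
      = ∑ x ∈ S, ∑ y, ∑ z, (if OP H S x y z then 1 else 0) := by
    intro S
    simp_rw [card_filter]
    calc ∑ y : V, ∑ z : V, ∑ x ∈ S, (if OP H S x y z then 1 else 0)
        = ∑ y : V, ∑ x ∈ S, ∑ z : V, (if OP H S x y z then 1 else 0) := by
          refine sum_congr rfl (fun y _ => ?_)
          rw [Finset.sum_comm]
      _ = _ := by rw [Finset.sum_comm]
  have h2 : ∑ S ∈ I H (k+1), ∑ y, ∑ z, (S.filter (fun x => OP H S x y z)).card
      ≤ ∑ S ∈ I H (k+1), ∑ w ∈ S, ∑ y, ∑ x,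
        (if y ∈ F H S ∧ x ∉ F H S ∧ (nb H S y x).Nonempty ∧ x ∈ F H (S.erase w)
          then 1 else 0) := by
    simp_rw [h1]
    rw [sum_I_succ k (fun S x => ∑ y, ∑ z, (if OP H S x y z then 1 else 0)),
      sum_I_succ k (fun S w => ∑ y, ∑ x,
        (if y ∈ F H S ∧ x ∉ F H S ∧ (nb H S y x).Nonempty ∧ x ∈ F H (S.erase w)
          then 1 else 0))]
    refine sum_le_sum (fun R hR => ?_)
    refine sum_swap13 (F H R) _ _ (fun x hx y z => ?_)
    by_cases hop : OP H (insert x R) x y z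
    · unfold OP at hop
      have hxR := (mem_F.1 hx).1
      rw [K_insert hxR, erase_insert hxR, mem_sdiff, mem_sdiff] at hop
      obtain ⟨⟨hy, hy'⟩, ⟨hz, hz'⟩, hyz, hI⟩ := hop
      have hzR := (mem_F.1 hz).1
      have hyR := (mem_F.1 hy).1
      have c1 : y ∈ F H (insert z R) := by
        rw [mem_F]
        refine ⟨?_, hI⟩
        simp [hyz, hyR]
      have c2 : x ∉ F H (insert z R) := by
        rcases adj_cases hz hz' with rfl | h
        · rw [mem_F]; simp
        · rw [mem_F]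
          rintro ⟨-, h'⟩
          rw [Finset.insert_comm] at h'
          exact h h'
      have hyx : y ≠ x := by
        rintro rfl
        exact c2 c1
      have c3 : (nb H (insert z R) y x).Nonempty := by
        rcases adj_cases hy hy' with rfl | h
        · exact absurd rfl hyx
        · obtain ⟨w, hw, he⟩ := exists_edge hH hy hx hyx h
          exact ⟨w, mem_nb.2 ⟨mem_insert_of_mem hw, Or.inr (Or.inr (Or.inr he))⟩⟩
      have c4 : x ∈ F H ((insert z R).erase z) := by
        rw [erase_insert hzR]; exact hx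
      rw [if_pos hz]
      have : (if y ∈ F H (insert z R) ∧ x ∉ F H (insert z R) ∧ (nb H (insert z R) y x).Nonempty
          ∧ x ∈ F H ((insert z R).erase z) then 1 else 0) = 1 := if_pos ⟨c1, c2, c3, c4⟩
      rw [this]
      split_ifs <;> omega
    · rw [if_neg hop]; exact Nat.zero_le _
  refine h2.trans ?_
  rw [mul_sum]
  refine sum_le_sum (fun S hS => ?_)
  rw [mem_I] at hS
  calc ∑ w ∈ S, ∑ y, ∑ x,
        (if y ∈ F H S ∧ x ∉ F H S ∧ (nb H S y x).Nonempty ∧ x ∈ F H (S.erase w)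
          then 1 else 0)
      = ∑ y, ∑ w ∈ S, ∑ x,
        (if y ∈ F H S ∧ x ∉ F H S ∧ (nb H S y x).Nonempty ∧ x ∈ F H (S.erase w)
          then 1 else 0) := by rw [Finset.sum_comm]
    _ = ∑ y, ∑ x, ∑ w ∈ S,
        (if y ∈ F H S ∧ x ∉ F H S ∧ (nb H S y x).Nonempty ∧ x ∈ F H (S.erase w)
          then 1 else 0) := by
        refine sum_congr rfl (fun y _ => ?_)
        rw [Finset.sum_comm]
    _ ≤ ∑ y, ∑ x, 2 * (if y ∈ F H S ∧ x ∉ F H S ∧ (nb H S y x).Nonempty then 1 else 0) := by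
        refine sum_le_sum (fun y _ => sum_le_sum (fun x _ => ?_))
        by_cases h : y ∈ F H S ∧ x ∉ F H S ∧ (nb H S y x).Nonempty
        · have hc := C_card_le hH hS.2 h.2.1
          have : ∑ w ∈ S, (if y ∈ F H S ∧ x ∉ F H S ∧ (nb H S y x).Nonempty
              ∧ x ∈ F H (S.erase w) then 1 else 0) = (C H S x).card := by
            unfold C
            rw [card_filter]
            refine sum_congr rfl (fun w _ => ?_)
            congr 1
            simp [h.1, h.2.1, h.2.2]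
          rw [this, if_pos h]
          omega
        · rw [if_neg h]
          refine (le_of_eq ?_)
          refine Finset.sum_eq_zero (fun w _ => ?_)
          rw [if_neg]
          rintro ⟨a, b, c, d⟩
          exact h ⟨a, b, c⟩
    _ = 2 * ∑ y, ∑ x, (if y ∈ F H S ∧ x ∉ F H S ∧ (nb H S y x).Nonempty then 1 else 0) := by
        simp_rw [mul_sum]

end Pool.Agent.TuranLarge
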