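import Mathlib
import Pool.Agent.TuranLarge.Global

set_option autoImplicit false

namespace Pool.Agent.TuranLarge
open Finset

variable {V : Type*} [Fintype V] [DecidableEq V]

/-- image configurations of exceptional pairs -/
def DP (H : Finset (Finset V)) (T : Finset V) (p u v : V) : Prop :=
  D H T u v = {p} ∧ ∃ w ∈ T, w ≠ p ∧ C H T u = {p, w} ∧ nb H T u v = {w}

instance decDP (H : Finset (Finset V)) (T : Finset V) (p u v : V) : Decidable (DP H T p u v) := by
  unfold DP; infer_instance

variable {H : Finset (Finset V)}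

lemma mem_C_iff {S : Finset V} {y : V} (hyS : y ∉ S) {w : V} :
    w ∈ C H S y ↔ w ∈ S ∧ ∀ e ∈ H, e ⊆ insert y S → w ∈ e := by
  rw [mem_C, mem_F]
  constructor
  · rintro ⟨hw, -, hI⟩
    refine ⟨hw, fun e he hes => ?_⟩
    by_contra hwe
    refine hI e he (fun a ha => ?_)
    rcases mem_insert.1 (hes ha) with rfl | h'
    · exact mem_insert_self _ _
    · exact mem_insert_of_mem (mem_erase.2 ⟨fun h => hwe (h ▸ ha), h'⟩)
  · rintro ⟨hw, h⟩
    refine ⟨hw, fun h' => hyS (mem_of_mem_erase h'), fun e he hes => ?_⟩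
    have h1 := h e he (hes.trans (insert_subset_insert y (erase_subset _ _)))
    have h2 := hes h1
    rw [mem_insert, mem_erase] at h2
    rcases h2 with rfl | h2
    · exact hyS hw
    · exact h2.1 rfl

lemma D_eq_inter {S : Finset V} {y z : V} (hy : y ∉ F H S) (hz : z ∉ F H S) :
    D H S y z = C H S y ∩ C H S z := by
  ext x
  rw [mem_D, mem_inter, mem_C, mem_C, mem_K, mem_K]
  tauto

lemma not_free_of_D {S : Finset V} {x y z : V} (h : x ∈ D H S y z) :
    y ∉ F H S ∧ z ∉ F H S := by
  rw [mem_D, mem_K, mem_K] at h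
  exact ⟨h.2.1.2, h.2.2.2⟩

lemma TI_image (hH : ∀ e ∈ H, e.card = 3) {R : Finset V} {x y z : V}
    (hx : x ∈ F H R) (hD : x ∈ D H (insert x R) y z) (hT : TI H (insert x R) y z) :
    y ∈ F H R ∧ DP H (insert y R) y x z := by
  have hxR := (mem_F.1 hx).1
  have hSI : Ind H (insert x R) := (mem_F.1 hx).2
  obtain ⟨hD2, hnb1, hdisj⟩ := hT
  obtain ⟨hyF, hzF⟩ := not_free_of_D hD
  -- C = D for both
  have hCy : C H (insert x R) y = D H (insert x R) y z :=
    (eq_of_subset_of_card_le (D_sub_C _ _ _) (by rw [hD2]; exact C_card_le hH hSI hyF)).symm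
  have hCz : C H (insert x R) z = D H (insert x R) y z := by
    rw [D_comm]
    exact (eq_of_subset_of_card_le (D_sub_C _ _ _)
      (by rw [D_comm, hD2]; exact C_card_le hH hSI hzF)).symm
  obtain ⟨hyS, heH, huy⟩ := edge_unique hH hSI hyF (by rw [hCy, hD2])
  obtain ⟨hzS, hezH, huz⟩ := edge_unique hH hSI hzF (by rw [hCz, hD2])
  rw [hCy] at heH huy
  rw [hCz] at hezH huz
  -- x'
  obtain ⟨x', hx'⟩ : ∃ x', D H (insert x R) y z = {x, x'} ∧ x ≠ x' := by
    obtain ⟨a, b, hab, hDab⟩ := card_eq_two.1 hD2
    rw [hDab, mem_insert, mem_singleton] at hD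
    rcases hD with rfl | rfl
    · exact ⟨b, hDab, hab⟩
    · exact ⟨a, by rw [hDab, pair_comm], hab.symm⟩
  obtain ⟨hDx, hxx'⟩ := hx'
  have hx'S : x' ∈ insert x R := by
    have : x' ∈ D H (insert x R) y z := by rw [hDx]; simp
    exact (mem_D.1 this).1
  have hx'R : x' ∈ R := by
    rcases mem_insert.1 hx'S with h | h
    · exact absurd h.symm hxx'
    · exact h
  obtain ⟨l, hl⟩ := card_eq_one.1 hnb1
  rw [hl, hDx, disjoint_singleton_left, mem_insert, mem_singleton, not_or] at hdisj
  have hlnb : l ∈ nb H (insert x R) y z := by rw [hl]; simp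
  rw [mem_nb] at hlnb
  have hlR : l ∈ R := by
    rcases mem_insert.1 hlnb.1 with h | h
    · exact absurd h hdisj.1
    · exact h
  have hyx : y ≠ x := fun h => hyS (h ▸ mem_insert_self _ _)
  have hzx : z ≠ x := fun h => hzS (h ▸ mem_insert_self _ _)
  have hyR : y ∉ R := fun h => hyS (mem_insert_of_mem h)
  have hzR : z ∉ R := fun h => hzS (mem_insert_of_mem h)
  have hyz : y ≠ z := by
    rintro rfl
    rw [nb_self] at hl
    have : x ∈ ({l} : Finset V) := by rw [← hl]; exact mem_insert_self _ _
    rw [mem_singleton] at this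
    exact hdisj.1 this.symm
  have hyFR : y ∈ F H R := by
    have := (mem_K.1 (mem_D.1 hD).2.1).1
    rwa [erase_insert hxR] at this
  have hzFR : z ∈ F H R := by
    have := (mem_K.1 (mem_D.1 hD).2.2).1
    rwa [erase_insert hxR] at this
  refine ⟨hyFR, ?_⟩
  -- edges
  rw [hDx] at heH huy hezH huz
  have hle : ({l, y, z} : Finset V) ∈ H := by
    rcases hlnb.2 with h | h | h | h
    · exact absurd (h ▸ hlR) hyR
    · exact absurd (h ▸ hlR) hzR
    · exact absurd h hyz
    · exact h
  have hTI : Ind H (insert y R) := (mem_F.1 hyFR).2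
  have hxT : x ∉ insert y R := by
    rw [mem_insert, not_or]; exact ⟨hyx.symm, hxR⟩
  have hzT : z ∉ insert y R := by
    rw [mem_insert, not_or]; exact ⟨hyz.symm, hzR⟩
  have hswap : insert x (insert y R) = insert y (insert x R) := Finset.insert_comm _ _ _
  -- C T x
  have hCTx : C H (insert y R) x = {y, x'} := by
    ext w
    rw [mem_C_iff hxT, hswap]
    constructor
    · rintro ⟨hw, h⟩
      have := h _ heH (by
        intro a ha
        simp only [mem_insert, mem_singleton] at ha ⊢
        rcases ha with rfl | rfl | rfl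
        · exact Or.inl rfl
        · exact Or.inr (Or.inl rfl)
        · exact Or.inr (Or.inr hx'R))
      simp only [mem_insert, mem_singleton] at this ⊢
      rcases this with h1 | h1 | h1
      · exact Or.inl h1
      · exact absurd (h1 ▸ hw) hxT
      · exact Or.inr h1
    · intro hw
      simp only [mem_insert, mem_singleton] at hw
      refine ⟨?_, fun e he hes => ?_⟩
      · rcases hw with rfl | rfl
        · exact mem_insert_self _ _
        · exact mem_insert_of_mem hx'R
      · rw [huy e he hes]
        simp only [mem_insert, mem_singleton]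
        rcases hw with rfl | rfl
        · exact Or.inl rfl
        · exact Or.inr (Or.inr rfl)
  have hxFT : x ∉ F H (insert y R) := by
    rw [mem_F]
    rintro ⟨-, h⟩
    refine h _ heH ?_
    intro a ha
    simp only [mem_insert, mem_singleton] at ha ⊢
    rcases ha with rfl | rfl | rfl
    · exact Or.inr (Or.inl rfl)
    · exact Or.inl rfl
    · exact Or.inr (Or.inr hx'R)
  have hzFT : z ∉ F H (insert y R) := by
    rw [mem_F]
    rintro ⟨-, h⟩
    refine h _ hle ?_
    intro a ha
    simp only [mem_insert, mem_singleton] at ha ⊢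
    rcases ha with rfl | rfl | rfl
    · exact Or.inr (Or.inr hlR)
    · exact Or.inr (Or.inl rfl)
    · exact Or.inl rfl
  -- the only edge in insert z T
  have huzT : ∀ e ∈ H, e ⊆ insert z (insert y R) → e = {l, y, z} := by
    intro e he hes
    have hye : y ∈ e := by
      by_contra h
      refine (mem_F.1 hzFR).2 e he (fun a ha => ?_)
      have := hes ha
      simp only [mem_insert] at this ⊢
      rcases this with h1 | h1 | h1
      · exact Or.inl h1
      · exact absurd (h1 ▸ ha) h
      · exact Or.inr h1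
    have hze : z ∈ e := by
      by_contra h
      refine hTI e he (fun a ha => ?_)
      have := hes ha
      simp only [mem_insert] at this ⊢
      rcases this with h1 | h1 | h1
      · exact absurd (h1 ▸ ha) h
      · exact Or.inl h1
      · exact Or.inr h1
    obtain ⟨w, hw⟩ : ((e.erase y).erase z).Nonempty := by
      rw [← card_pos, card_erase_of_mem (mem_erase.2 ⟨hyz.symm, hze⟩), card_erase_of_mem hye,
        hH e he]
      norm_num
    simp only [mem_erase] at hw
    have hwR : w ∈ R := by
      have := hes hw.2.2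
      simp only [mem_insert] at this
      rcases this with h1 | h1 | h1
      · exact absurd h1 hw.1
      · exact absurd h1 hw.2.1
      · exact h1
    have hew : ({w, y, z} : Finset V) = e := by
      refine eq_of_subset_of_card_le ?_ ?_
      · intro a ha
        simp only [mem_insert, mem_singleton] at ha
        rcases ha with rfl | rfl | rfl
        · exact hw.2.2
        · exact hye
        · exact hze
      · rw [hH e he, card_insert_of_notMem, card_insert_of_notMem, card_singleton]
        · simpa using hyz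
        · simp only [mem_insert, mem_singleton, not_or]; exact ⟨hw.2.1, hw.1⟩
    have hwnb : w ∈ nb H (insert x R) y z := by
      rw [mem_nb]
      exact ⟨mem_insert_of_mem hwR, Or.inr (Or.inr (Or.inr (hew ▸ he)))⟩
    rw [hl, mem_singleton] at hwnb
    rw [← hew, hwnb]
  have hCTz : C H (insert y R) z = {y, l} := by
    ext w
    rw [mem_C_iff hzT]
    constructor
    · rintro ⟨hw, h⟩
      have := h _ hle (by
        intro a ha
        simp only [mem_insert, mem_singleton] at ha ⊢
        rcases ha with rfl | rfl | rfl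
        · exact Or.inr (Or.inr hlR)
        · exact Or.inr (Or.inl rfl)
        · exact Or.inl rfl)
      simp only [mem_insert, mem_singleton] at this ⊢
      rcases this with h1 | h1 | h1
      · exact Or.inr h1
      · exact Or.inl h1
      · exact absurd (h1 ▸ hw) hzT
    · intro hw
      simp only [mem_insert, mem_singleton] at hw
      refine ⟨?_, fun e he hes => ?_⟩
      · rcases hw with rfl | rfl
        · exact mem_insert_self _ _
        · exact mem_insert_of_mem hlR
      · rw [huzT e he hes]
        simp only [mem_insert, mem_singleton]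
        rcases hw with rfl | rfl
        · exact Or.inr (Or.inl rfl)
        · exact Or.inl rfl
  refine ⟨?_, x', mem_insert_of_mem hx'R, fun h => hyR (h ▸ hx'R), hCTx, ?_⟩
  · rw [D_eq_inter hxFT hzFT, hCTx, hCTz]
    ext w
    simp only [mem_inter, mem_insert, mem_singleton]
    constructor
    · rintro ⟨h1 | h1, h2 | h2⟩
      · exact h1
      · exact h1
      · exact h2
      · exact absurd (h2.symm.trans h1) hdisj.2
    · intro h
      exact ⟨Or.inl h, Or.inl h⟩
  · ext w
    rw [mem_nb, mem_singleton]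
    constructor
    · rintro ⟨hw, hE⟩
      rcases mem_insert.1 hw with rfl | hwR
      · exfalso
        rcases hE with h | h | h | h
        · exact hyx h
        · exact hyz h
        · exact hzx h.symm
        · -- {y,x,z} ∈ H contradicts x ∉ nb
          have : x ∈ nb H (insert x R) w z := by
            rw [mem_nb]
            refine ⟨mem_insert_self _ _, Or.inr (Or.inr (Or.inr ?_))⟩
            have : ({x, w, z} : Finset V) = {w, x, z} := by
              ext a; simp only [mem_insert, mem_singleton]; tauto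
            rw [this]; exact h
          rw [hl, mem_singleton] at this
          exact hdisj.1 this.symm
      · rcases hE with h | h | h | h
        · exact absurd (h ▸ hwR) hxR
        · exact absurd (h ▸ hwR) hzR
        · exact absurd h.symm hzx
        · have h1 := huz _ h (by
            intro a ha
            simp only [mem_insert, mem_singleton] at ha ⊢
            rcases ha with rfl | rfl | rfl
            · exact Or.inr (Or.inr hwR)
            · exact Or.inr (Or.inl rfl)
            · exact Or.inl rfl)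
          have h2 : w ∈ ({w, x, z} : Finset V) := by simp
          rw [h1] at h2
          simp only [mem_insert, mem_singleton] at h2
          rcases h2 with h3 | h3 | h3
          · exact absurd (h3 ▸ hwR) hzR
          · exact absurd (h3 ▸ hwR) hxR
          · exact h3
    · rintro rfl
      refine ⟨mem_insert_of_mem hx'R, Or.inr (Or.inr (Or.inr ?_))⟩
      have : ({w, x, z} : Finset V) = insert z {x, w} := by
        ext a; simp only [mem_insert, mem_singleton]; tauto
      rw [this]; exact hezH

lemma DP_asymm {T : Finset V} {p u v : V} (h1 : DP H T p u v) : ¬ DP H T p v u := by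
  rintro ⟨hD', w', hw'T, hw'p, hC', hn'⟩
  obtain ⟨hD, w, hwT, hwp, hC, hn⟩ := h1
  rw [nb_comm, hn, singleton_inj] at hn'
  subst hn'
  have hp : p ∈ D H T u v := by rw [hD]; simp
  obtain ⟨hu, hv⟩ := not_free_of_D hp
  have : w ∈ D H T u v := by
    rw [D_eq_inter hu hv, hC, hC']; simp
  rw [hD, mem_singleton] at this
  exact hwp this

lemma TI_sum (hH : ∀ e ∈ H, e.card = 3) (k : ℕ) :
    4 * ∑ S ∈ I H (k+1), ∑ y, ∑ z, (if TI H S y z then 1 else 0)
    ≤ ∑ S ∈ I H (k+1), ∑ y, ∑ z, (if (D H S y z).card = 1 then 1 else 0) := by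
  have h1 : 2 * ∑ S ∈ I H (k+1), ∑ y, ∑ z, (if TI H S y z then 1 else 0)
      = ∑ S ∈ I H (k+1), ∑ x ∈ S, ∑ y, ∑ z,
        (if x ∈ D H S y z ∧ TI H S y z then 1 else 0) := by
    rw [mul_sum]
    refine sum_congr rfl (fun S _ => ?_)
    have hs : ∑ x ∈ S, ∑ y, ∑ z, (if x ∈ D H S y z ∧ TI H S y z then 1 else 0)
        = ∑ y, ∑ z, ∑ x ∈ S, (if x ∈ D H S y z ∧ TI H S y z then 1 else 0) := by
      rw [Finset.sum_comm]
      refine sum_congr rfl (fun y _ => ?_)
      rw [Finset.sum_comm]
    rw [hs, mul_sum]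
    refine sum_congr rfl (fun y _ => ?_)
    rw [mul_sum]
    refine sum_congr rfl (fun z _ => ?_)
    by_cases hT : TI H S y z
    · simp only [hT, and_true, if_true]
      rw [← card_filter]
      have : S.filter (fun x => x ∈ D H S y z) = D H S y z := by
        ext x
        rw [mem_filter]
        constructor
        · exact fun h => h.2
        · exact fun h => ⟨(mem_D.1 h).1, h⟩
      rw [this, hT.1]
      norm_num
    · simp [hT]
  have h2 : ∑ S ∈ I H (k+1), ∑ x ∈ S, ∑ y, ∑ z,
        (if x ∈ D H S y z ∧ TI H S y z then 1 else 0)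
      ≤ ∑ T ∈ I H (k+1), ∑ p ∈ T, ∑ u, ∑ v, (if DP H T p u v then 1 else 0) := by
    rw [sum_I_succ k (fun S x => ∑ y, ∑ z, (if x ∈ D H S y z ∧ TI H S y z then 1 else 0)),
      sum_I_succ k (fun T p => ∑ u, ∑ v, (if DP H T p u v then 1 else 0))]
    refine sum_le_sum (fun R hR => ?_)
    have hsw := sum_swap12 (F H R)
      (fun x y z => if x ∈ D H (insert x R) y z ∧ TI H (insert x R) y z then 1 else 0)
      (fun p u v => if DP H (insert p R) p u v then 1 else 0) (by
        intro x hx y z
        by_cases h : x ∈ D H (insert x R) y z ∧ TI H (insert x R) y z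
        · obtain ⟨h3, h4⟩ := TI_image hH hx h.1 h.2
          simp only [h, h3, h4, if_true]
          simp
        · simp only [h, if_false]
          exact Nat.zero_le _)
    refine hsw.trans (le_of_eq ?_)
    refine sum_congr rfl (fun p _ => ?_)
    rw [Finset.sum_comm]
  have h3 : 2 * ∑ T ∈ I H (k+1), ∑ p ∈ T, ∑ u, ∑ v, (if DP H T p u v then 1 else 0)
      ≤ ∑ S ∈ I H (k+1), ∑ y, ∑ z, (if (D H S y z).card = 1 then 1 else 0) := by
    rw [mul_sum]
    refine sum_le_sum (fun T _ => ?_)
    have e1 : ∑ p ∈ T, ∑ u, ∑ v, (if DP H T p u v then 1 else 0)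
        = ∑ p ∈ T, ∑ u, ∑ v, (if DP H T p v u then 1 else 0) := by
      refine sum_congr rfl (fun p _ => ?_)
      rw [Finset.sum_comm]
    calc 2 * ∑ p ∈ T, ∑ u, ∑ v, (if DP H T p u v then 1 else 0)
        = ∑ p ∈ T, ∑ u, ∑ v, (if DP H T p u v then 1 else 0)
          + ∑ p ∈ T, ∑ u, ∑ v, (if DP H T p v u then 1 else 0) := by rw [← e1]; ring
      _ = ∑ p ∈ T, ∑ u, ∑ v, ((if DP H T p u v then 1 else 0)
          + (if DP H T p v u then 1 else 0)) := by simp_rw [sum_add_distrib]
      _ ≤ ∑ p ∈ T, ∑ u, ∑ v, (if D H T u v = {p} then 1 else 0) := by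
          refine sum_le_sum (fun p _ => sum_le_sum (fun u _ => sum_le_sum (fun v _ => ?_)))
          by_cases ha : DP H T p u v
          · have hb := DP_asymm ha
            simp [ha, hb, ha.1]
          · by_cases hb : DP H T p v u
            · have hc := hb.1
              rw [D_comm] at hc
              simp [ha, hb, hc]
            · simp [ha, hb]
      _ = ∑ u, ∑ v, ∑ p ∈ T, (if D H T u v = {p} then 1 else 0) := by
          rw [Finset.sum_comm]
          refine sum_congr rfl (fun u _ => ?_)
          rw [Finset.sum_comm]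
      _ ≤ ∑ u, ∑ v, (if (D H T u v).card = 1 then 1 else 0) := by
          refine sum_le_sum (fun u _ => sum_le_sum (fun v _ => ?_))
          by_cases hc : (D H T u v).card = 1
          · obtain ⟨q, hq⟩ := card_eq_one.1 hc
            rw [if_pos hc, ← card_filter]
            have : T.filter (fun p => D H T u v = {p}) ⊆ {q} := by
              intro p hp
              rw [mem_filter, hq, singleton_inj] at hp
              rw [mem_singleton]; exact hp.2.symm
            exact (card_le_card this).trans (by simp)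
          · rw [if_neg hc]
            refine le_of_eq (Finset.sum_eq_zero (fun p _ => ?_))
            rw [if_neg]
            intro h
            exact hc (by rw [h]; simp)
  omega

/-- exceptional pairs are at most one sixth -/
lemma TI_six (hH : ∀ e ∈ H, e.card = 3) (k : ℕ) :
    6 * ∑ S ∈ I H (k+1), ∑ y, ∑ z, (if TI H S y z then 1 else 0) ≤ X H (k+1) := by
  have h1 := TI_sum hH k
  have h2 : ∑ S ∈ I H (k+1), ∑ y, ∑ z, (if (D H S y z).card = 1 then 1 else 0)
      + 2 * ∑ S ∈ I H (k+1), ∑ y, ∑ z, (if TI H S y z then 1 else 0) ≤ X H (k+1) := by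
    unfold X
    rw [mul_sum, ← sum_add_distrib]
    refine sum_le_sum (fun S hS => ?_)
    rw [mem_I] at hS
    rw [← sum_D, mul_sum, ← sum_add_distrib]
    refine sum_le_sum (fun y _ => ?_)
    rw [mul_sum, ← sum_add_distrib]
    refine sum_le_sum (fun z _ => ?_)
    by_cases hT : TI H S y z
    · rw [if_pos hT, hT.1]; simp
    · rw [if_neg hT]
      by_cases hc : (D H S y z).card = 1
      · rw [if_pos hc, hc]; norm_num
      · rw [if_neg hc]; omega
  omega

/-- the main counting inequality -/
theorem main_count (hH : ∀ e ∈ H, e.card = 3) {k : ℕ} (hk : 2 ≤ k) :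
    6 * A H (k+1) + 5 * X H k ≤ 6 * ∑ S ∈ I H k, ∑ x ∈ S, deg H x := by
  obtain ⟨j, rfl⟩ : ∃ j, k = j + 1 := ⟨k - 1, by omega⟩
  have hFF := FF_ge hH (k := j + 1) (by omega)
  have hO := O_le hH j
  have hTI := TI_six hH j
  have hsum : ∑ S ∈ I H (j+1), ∑ y, ∑ z,
        (if y ∈ F H S ∧ z ∈ F H S ∧ (nb H S y z).Nonempty then 1 else 0)
      + ∑ S ∈ I H (j+1), ∑ y, ∑ z,
        (if y ∈ F H S ∧ z ∉ F H S ∧ (nb H S y z).Nonempty then 1 else 0)
      + ∑ S ∈ I H (j+1), ∑ y, ∑ z,
        (if y ∉ F H S ∧ z ∈ F H S ∧ (nb H S y z).Nonempty then 1 else 0)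
      + X H (j+1)
      ≤ ∑ S ∈ I H (j+1), ∑ x ∈ S, deg H x
      + ∑ S ∈ I H (j+1), ∑ y, ∑ z, (S.filter (fun x => OP H S x y z)).card
      + ∑ S ∈ I H (j+1), ∑ y, ∑ z, (if TI H S y z then 1 else 0) := by
    unfold X
    simp_rw [← sum_nb, ← sum_D, ← sum_add_distrib]
    refine sum_le_sum (fun S hS => sum_le_sum (fun y _ => sum_le_sum (fun z _ => ?_)))
    exact pair_ineq hH hk hS y z
  have hsymm : ∑ S ∈ I H (j+1), ∑ y, ∑ z,
        (if y ∉ F H S ∧ z ∈ F H S ∧ (nb H S y z).Nonempty then 1 else 0)
      = ∑ S ∈ I H (j+1), ∑ y, ∑ z,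
        (if y ∈ F H S ∧ z ∉ F H S ∧ (nb H S y z).Nonempty then 1 else 0) := by
    refine sum_congr rfl (fun S _ => ?_)
    rw [Finset.sum_comm]
    refine sum_congr rfl (fun y _ => sum_congr rfl (fun z _ => ?_))
    rw [nb_comm S z y]
    congr 1
    apply propext
    tauto
  omega

/-- first-level identity (inequality form) -/
theorem level_identity (k : ℕ) :
    A H (k+1) + (k+1) * ((k+2) * N H (k+2)) = ∑ R ∈ I H k, (F H R).card ^ 2 := by
  have h0 : ∀ j : ℕ, ∑ R ∈ I H j, (F H R).card = (j+1) * N H (j+1) := by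
    intro j
    have := sum_I_succ (H := H) j (fun _ _ => (1:ℕ))
    simp only [sum_const, smul_eq_mul, mul_one] at this
    rw [← this]
    rw [Finset.sum_congr rfl (fun S hS => (mem_I.1 hS).1)]
    rw [sum_const, smul_eq_mul]
    unfold N
    ring
  have h1 : (k+1) * ((k+2) * N H (k+2)) = ∑ S ∈ I H (k+1), ∑ x ∈ S, (F H S).card := by
    have : ∑ S ∈ I H (k+1), ∑ x ∈ S, (F H S).card
        = ∑ S ∈ I H (k+1), (k+1) * (F H S).card := by
      refine sum_congr rfl (fun S hS => ?_)
      rw [sum_const, smul_eq_mul, (mem_I.1 hS).1]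
    rw [this, ← mul_sum, h0 (k+1)]
  rw [h1]
  unfold A
  rw [← sum_add_distrib]
  have : ∀ S ∈ I H (k+1), ∑ x ∈ S, (K H S x).card + ∑ x ∈ S, (F H S).card
      = ∑ x ∈ S, (F H (S.erase x)).card := by
    intro S _
    rw [← sum_add_distrib]
    refine sum_congr rfl (fun x _ => ?_)
    unfold K
    exact card_sdiff_add_card_eq_card (F_anti (erase_subset _ _))
  rw [sum_congr rfl this, sum_I_succ k (fun S x => (F H (S.erase x)).card)]
  refine sum_congr rfl (fun R _ => ?_)
  have : ∀ x ∈ F H R, (F H ((insert x R).erase x)).card = (F H R).card := by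
    intro x hx
    rw [erase_insert (mem_F.1 hx).1]
  rw [sum_congr rfl this, sum_const, smul_eq_mul, sq]

lemma sum_F (k : ℕ) : ∑ R ∈ I H k, (F H R).card = (k+1) * N H (k+1) := by
  have := sum_I_succ (H := H) k (fun _ _ => (1:ℕ))
  simp only [sum_const, smul_eq_mul, mul_one] at this
  rw [← this]
  rw [Finset.sum_congr rfl (fun S hS => (mem_I.1 hS).1)]
  rw [sum_const, smul_eq_mul]
  unfold N
  ring

/-- Cauchy–Schwarz at the first level -/
theorem level_cs (k : ℕ) :
    ((k+1) * N H (k+1)) ^ 2 ≤ N H k * (A H (k+1) + (k+1) * ((k+2) * N H (k+2))) := by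
  rw [level_identity, ← sum_F]
  exact sq_sum_le_card_mul_sum_sq

/-- Cauchy–Schwarz for the squared sum -/
theorem X_cs (k : ℕ) : A H k ^ 2 ≤ (k * N H k) * X H k := by
  unfold A X N
  have h1 : (∑ S ∈ I H k, ∑ x ∈ S, (K H S x).card) ^ 2
      ≤ (I H k).card * ∑ S ∈ I H k, (∑ x ∈ S, (K H S x).card) ^ 2 := sq_sum_le_card_mul_sum_sq
  have h2 : ∑ S ∈ I H k, (∑ x ∈ S, (K H S x).card) ^ 2
      ≤ ∑ S ∈ I H k, k * ∑ x ∈ S, (K H S x).card ^ 2 := by
    refine sum_le_sum (fun S hS => ?_)
    have := sq_sum_le_card_mul_sum_sq (s := S) (f := fun x => (K H S x).card)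
    rwa [(mem_I.1 hS).1] at this
  calc _ ≤ (I H k).card * ∑ S ∈ I H k, (∑ x ∈ S, (K H S x).card) ^ 2 := h1
    _ ≤ (I H k).card * ∑ S ∈ I H k, k * ∑ x ∈ S, (K H S x).card ^ 2 := Nat.mul_le_mul_left _ h2
    _ = _ := by rw [← mul_sum]; ring

end Pool.Agent.TuranLarge
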