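import Mathlib
import Pool.Agent.TuranLarge.TypeI
import Pool.Agent.TuranLarge.Analysis

set_option autoImplicit false

namespace Pool.Agent.TuranLarge
open Finset Filter Topology

variable {V : Type*} [Fintype V] [DecidableEq V]

/-- normalised extension probabilities -/
noncomputable def P (H : Finset (Finset V)) (k : ℕ) : ℝ :=
  (((k:ℝ)+1) * N H (k+1)) / (Fintype.card V * N H k)

/-- running minimum -/
noncomputable def runmin (P : ℕ → ℝ) : ℕ → ℝ
  | 0 => P 1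
  | (k+1) => min (runmin P k) (P (k+1))

variable {H : Finset (Finset V)}

lemma N_mono_zero {k : ℕ} (h : N H k = 0) : N H (k+1) = 0 := by
  unfold N at *
  rw [card_eq_zero] at *
  rw [eq_empty_iff_forall_notMem]
  intro S hS
  rw [mem_I] at hS
  obtain ⟨x, hx⟩ : S.Nonempty := by rw [← card_pos]; omega
  have : S.erase x ∈ I H k := by
    rw [mem_I]
    refine ⟨?_, hS.2.mono (erase_subset _ _)⟩
    rw [card_erase_of_mem hx, hS.1]; rfl
  rw [h] at this
  exact absurd this (notMem_empty _)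

lemma P_nonneg (k : ℕ) : 0 ≤ P H k := by unfold P; positivity

/-- main recurrence for the normalised sequence -/
lemma P_rec (hH : ∀ e ∈ H, e.card = 3) {Δ : ℝ} (hΔ : ∀ x, (deg H x : ℝ) ≤ Δ)
    (hV : 0 < Fintype.card V) {k : ℕ} (hk : 2 ≤ k) :
    P H k * max 0 (P H k - P H (k+1)) + 5/6 * (k:ℝ) * (max 0 (P H (k-1) - P H k)) ^ 2
      ≤ k * (Δ / (Fintype.card V : ℝ) ^ 2) := by
  obtain ⟨n, hn⟩ : ∃ n : ℝ, n = Fintype.card V := ⟨_, rfl⟩
  have hn0 : 0 < n := by rw [hn]; exact_mod_cast hV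
  rw [← hn]
  have hΔ0 : 0 ≤ Δ := by
    obtain ⟨x⟩ : Nonempty V := Fintype.card_pos_iff.1 hV
    exact (Nat.cast_nonneg _).trans (hΔ x)
  by_cases hN : N H k = 0
  · have h1 : P H k = 0 := by unfold P; rw [hN]; simp
    have h2 : P H (k-1) = 0 := by
      unfold P
      have : k - 1 + 1 = k := by omega
      rw [this, hN]; simp
    have h3 := P_nonneg (H := H) (k+1)
    rw [h1, h2]
    simp only [zero_mul, sub_self, max_self, ne_eq, OfNat.ofNat_ne_zero, not_false_eq_true,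
      zero_pow, mul_zero, add_zero]
    positivity
  obtain ⟨j, rfl⟩ : ∃ j, k = j + 1 := ⟨k - 1, by omega⟩
  have hNj : N H j ≠ 0 := fun h => hN (N_mono_zero h)
  obtain ⟨a, ha⟩ : ∃ a : ℝ, a = N H j := ⟨_, rfl⟩
  obtain ⟨b, hb⟩ : ∃ b : ℝ, b = N H (j+1) := ⟨_, rfl⟩
  obtain ⟨c, hc⟩ : ∃ c : ℝ, c = N H (j+2) := ⟨_, rfl⟩
  obtain ⟨d, hd⟩ : ∃ d : ℝ, d = N H (j+3) := ⟨_, rfl⟩
  obtain ⟨K, hK⟩ : ∃ K : ℝ, K = ((j+1 : ℕ) : ℝ) := ⟨_, rfl⟩
  have hK0 : 0 < K := by rw [hK]; positivity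
  have hKj : (j:ℝ) = K - 1 := by rw [hK]; push_cast; ring
  have ha0 : 0 < a := by rw [ha]; exact_mod_cast Nat.pos_of_ne_zero hNj
  have hb0 : 0 < b := by rw [hb]; exact_mod_cast Nat.pos_of_ne_zero hN
  have hc0 : 0 ≤ c := by rw [hc]; positivity
  have hd0 : 0 ≤ d := by rw [hd]; positivity
  have hP0 : P H j = K * b / (n * a) := by
    unfold P; rw [← ha, ← hb, ← hn, hKj]; ring_nf
  have hP1 : P H (j+1) = (K+1) * c / (n * b) := by
    unfold P; rw [← hb, ← hc, ← hn, hK]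
  have hP2 : P H (j+1+1) = (K+2) * d / (n * c) := by
    unfold P
    have e1 : N H (j+1+1) = N H (j+2) := rfl
    have e2 : N H (j+1+1+1) = N H (j+3) := rfl
    rw [e1, e2, ← hc, ← hd, ← hn]
    have : (((j+1+1 : ℕ) : ℝ) + 1) = K + 2 := by rw [hK]; push_cast; ring
    rw [this]
  have hj1 : j + 1 - 1 = j := rfl
  rw [hj1]
  -- real versions
  have hmain := main_count hH (k := j+1) hk
  have hX := X_cs (H := H) (j+1)
  have hc1 := level_cs (H := H) j
  have hc2 := level_cs (H := H) (j+1)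
  obtain ⟨A1, hA1⟩ : ∃ A1 : ℝ, A1 = A H (j+1) := ⟨_, rfl⟩
  obtain ⟨A2, hA2⟩ : ∃ A2 : ℝ, A2 = A H (j+2) := ⟨_, rfl⟩
  obtain ⟨x, hx⟩ : ∃ x : ℝ, x = X H (j+1) := ⟨_, rfl⟩
  have hA10 : 0 ≤ A1 := by rw [hA1]; positivity
  have hA20 : 0 ≤ A2 := by rw [hA2]; positivity
  have rmain : 6 * A2 + 5 * x ≤ 6 * (K * Δ * b) := by
    have h1 : ((6 * A H (j+1+1) + 5 * X H (j+1) : ℕ) : ℝ)
        ≤ ((6 * ∑ S ∈ I H (j+1), ∑ x ∈ S, deg H x : ℕ) : ℝ) := by exact_mod_cast hmain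
    push_cast at h1
    have e1 : A H (j+1+1) = A H (j+2) := rfl
    rw [e1, ← hA2, ← hx] at h1
    refine h1.trans ?_
    have h2 : ∑ S ∈ I H (j+1), ∑ x ∈ S, (deg H x : ℝ) ≤ ∑ S ∈ I H (j+1), K * Δ := by
      refine sum_le_sum (fun S hS => ?_)
      calc ∑ x ∈ S, (deg H x : ℝ) ≤ ∑ x ∈ S, Δ := sum_le_sum (fun x _ => hΔ x)
        _ = K * Δ := by rw [sum_const, (mem_I.1 hS).1, nsmul_eq_mul, hK]
    rw [sum_const, nsmul_eq_mul] at h2
    have e2 : (((I H (j+1)).card : ℕ) : ℝ) = b := by rw [hb]; rfl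
    rw [e2] at h2
    linarith
  have rX : A1 ^ 2 ≤ K * b * x := by
    have h1 : ((A H (j+1) ^ 2 : ℕ) : ℝ) ≤ (((j+1) * N H (j+1) * X H (j+1) : ℕ) : ℝ) := by
      exact_mod_cast hX
    push_cast at h1
    rw [← hA1, ← hb, ← hx] at h1
    have e : ((j:ℝ)+1) = K := by rw [hK]; push_cast; ring
    rw [e] at h1
    exact h1
  have rc1 : (K * b) ^ 2 ≤ a * (A1 + K * ((K+1) * c)) := by
    have h1 : ((((j+1) * N H (j+1)) ^ 2 : ℕ) : ℝ)
        ≤ ((N H j * (A H (j+1) + (j+1) * ((j+2) * N H (j+2))) : ℕ) : ℝ) := by exact_mod_cast hc1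
    push_cast at h1
    rw [← hA1, ← hb, ← hc, ← ha] at h1
    have e : ((j:ℝ)+1) = K := by rw [hK]; push_cast; ring
    have e' : ((j:ℝ)+2) = K + 1 := by rw [hK]; push_cast; ring
    rw [e, e'] at h1
    exact h1
  have rc2 : ((K+1) * c) ^ 2 ≤ b * (A2 + (K+1) * ((K+2) * d)) := by
    have h1 : ((((j+1+1) * N H (j+1+1)) ^ 2 : ℕ) : ℝ)
        ≤ ((N H (j+1) * (A H (j+1+1) + (j+1+1) * ((j+1+2) * N H (j+1+2))) : ℕ) : ℝ) := by
      exact_mod_cast hc2
    push_cast at h1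
    have e1 : A H (j+1+1) = A H (j+2) := rfl
    have e2 : N H (j+1+1) = N H (j+2) := rfl
    have e3 : N H (j+1+2) = N H (j+3) := rfl
    rw [e1, e2, e3, ← hA2, ← hb, ← hc, ← hd] at h1
    have e : ((j:ℝ)+1+1) = K + 1 := by rw [hK]; push_cast; ring
    have e' : ((j:ℝ)+1+2) = K + 2 := by rw [hK]; push_cast; ring
    rw [e, e'] at h1
    exact h1
  -- normalised consequences
  have s1 : K * (P H j - P H (j+1)) ≤ A1 / (n * b) := by
    rw [hP0, hP1, le_div_iff₀ (by positivity)]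
    have e : K * (K * b / (n * a) - (K + 1) * c / (n * b)) * (n * b)
        = ((K * b) ^ 2 - a * (K * ((K+1) * c))) / a := by
      field_simp
    rw [e, div_le_iff₀ ha0]
    linarith
  have s2 : P H (j+1) * (P H (j+1) - P H (j+1+1)) ≤ A2 / (n ^ 2 * b) := by
    rcases eq_or_lt_of_le hc0 with h0 | h0
    · rw [hP1, ← h0]
      simp only [mul_zero, zero_div, zero_mul]
      positivity
    · rw [hP1, hP2, le_div_iff₀ (by positivity)]
      have e : (K + 1) * c / (n * b) * ((K + 1) * c / (n * b) - (K + 2) * d / (n * c)) * (n ^ 2 * b)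
          = (((K+1) * c) ^ 2 - b * ((K+1) * ((K+2) * d))) / b := by
        field_simp
      rw [e, div_le_iff₀ hb0]
      linarith
  have s2' : P H (j+1) * max 0 (P H (j+1) - P H (j+1+1)) ≤ A2 / (n ^ 2 * b) := by
    rcases le_total 0 (P H (j+1) - P H (j+1+1)) with h | h
    · rw [max_eq_right h]; exact s2
    · rw [max_eq_left h, mul_zero]; positivity
  have s1' : max 0 (P H j - P H (j+1)) ≤ A1 / (n * b) / K := by
    refine max_le (by positivity) ?_
    rw [le_div_iff₀ hK0]; linarith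
  have s3 : (max 0 (P H j - P H (j+1))) ^ 2 ≤ (A1 / (n * b) / K) ^ 2 :=
    pow_le_pow_left₀ (le_max_left _ _) s1' 2
  have s4 : K * (A1 / (n * b) / K) ^ 2 ≤ x / (n ^ 2 * b) := by
    have e : K * (A1 / (n * b) / K) ^ 2 = A1 ^ 2 / (n ^ 2 * b ^ 2 * K) := by field_simp
    rw [e, div_le_div_iff₀ (by positivity) (by positivity)]
    nlinarith [mul_le_mul_of_nonneg_right rX (show 0 ≤ n ^ 2 * b by positivity)]
  have s5 : A2 / (n ^ 2 * b) + 5/6 * (x / (n ^ 2 * b)) ≤ K * (Δ / n ^ 2) := by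
    have e : A2 / (n ^ 2 * b) + 5/6 * (x / (n ^ 2 * b)) = (6 * A2 + 5 * x) / (6 * (n ^ 2 * b)) := by
      field_simp
    have e' : K * (Δ / n ^ 2) = 6 * (K * Δ * b) / (6 * (n ^ 2 * b)) := by field_simp
    rw [e, e']
    exact div_le_div_of_nonneg_right rmain (by positivity)
  rw [← hK]
  calc P H (j+1) * max 0 (P H (j+1) - P H (j+1+1)) + 5/6 * K * (max 0 (P H j - P H (j+1))) ^ 2
      ≤ A2 / (n ^ 2 * b) + 5/6 * (x / (n ^ 2 * b)) := by
        refine add_le_add s2' ?_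
        rw [mul_assoc]
        refine mul_le_mul_of_nonneg_left ?_ (by norm_num)
        exact (mul_le_mul_of_nonneg_left s3 hK0.le).trans s4
    _ ≤ K * (Δ / n ^ 2) := s5

lemma runmin_le {P : ℕ → ℝ} (k : ℕ) (hk : 1 ≤ k) : runmin P k ≤ P k := by
  obtain ⟨j, rfl⟩ : ∃ j, k = j + 1 := ⟨k - 1, by omega⟩
  exact min_le_right _ _

lemma runmin_anti {P : ℕ → ℝ} (k : ℕ) : runmin P (k+1) ≤ runmin P k := min_le_left _ _

lemma runmin_diff {P : ℕ → ℝ} (k : ℕ) (hk : 1 ≤ k) :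
    runmin P k - runmin P (k+1) ≤ max 0 (P k - P (k+1)) := by
  rcases le_total (runmin P k) (P (k+1)) with h | h
  · have : runmin P (k+1) = runmin P k := min_eq_left h
    rw [this, sub_self]; exact le_max_left _ _
  · have : runmin P (k+1) = P (k+1) := min_eq_right h
    rw [this]
    exact (sub_le_sub_right (runmin_le k hk) _).trans (le_max_right _ _)

lemma hyp_runmin {P : ℕ → ℝ} {M ε : ℝ} (hP : ∀ k, 0 ≤ P k) (h1 : 1 - ε ≤ P 1)
    (hrec : ∀ k : ℕ, 2 ≤ k → P k * max 0 (P k - P (k+1)) + 5/6 * (k:ℝ) * (max 0 (P (k-1) - P k)) ^ 2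
      ≤ k * (1 / M ^ 2)) : Hyp M ε (runmin P) := by
  have hnn : ∀ k, 0 ≤ runmin P k := by
    intro k
    induction k with
    | zero => exact hP 1
    | succ k ih => exact le_min ih (hP _)
  refine ⟨fun k _ => hnn k, fun k _ => runmin_anti k, ?_, ?_⟩
  · have : runmin P 1 = P 1 := by simp [runmin]
    rw [this]; exact h1
  · intro k hk
    have h2 := hrec (k+1) (by omega)
    have e1 : (((k+1 : ℕ) : ℝ)) * (1 / M ^ 2) = ((k:ℝ)+1) / M ^ 2 := by push_cast; ring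
    rw [e1] at h2
    refine le_trans (add_le_add ?_ ?_) h2
    · exact mul_le_mul (runmin_le _ (by omega)) (runmin_diff (k+1) (by omega))
        (sub_nonneg.2 (runmin_anti _)) (hP _)
    · push_cast
      refine mul_le_mul_of_nonneg_left ?_ (by positivity)
      exact pow_le_pow_left₀ (sub_nonneg.2 (runmin_anti _)) (runmin_diff k hk) 2

lemma N_one (hH : ∀ e ∈ H, e.card = 3) : N H 1 = Fintype.card V := by
  unfold N
  have : I H 1 = univ.powersetCard 1 := by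
    ext S
    rw [mem_I, mem_powersetCard]
    constructor
    · rintro ⟨h, -⟩; exact ⟨subset_univ _, h⟩
    · rintro ⟨-, h⟩
      refine ⟨h, fun e he hes => ?_⟩
      have := card_le_card hes
      rw [hH e he, h] at this
      omega
  rw [this, card_powersetCard, Nat.choose_one_right, card_univ]

lemma N_two (hH : ∀ e ∈ H, e.card = 3) : N H 2 = (Fintype.card V).choose 2 := by
  unfold N
  have : I H 2 = univ.powersetCard 2 := by
    ext S
    rw [mem_I, mem_powersetCard]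
    constructor
    · rintro ⟨h, -⟩; exact ⟨subset_univ _, h⟩
    · rintro ⟨-, h⟩
      refine ⟨h, fun e he hes => ?_⟩
      have := card_le_card hes
      rw [hH e he, h] at this
      omega
  rw [this, card_powersetCard, card_univ]

lemma P_one (hH : ∀ e ∈ H, e.card = 3) (hV : 0 < Fintype.card V) :
    P H 1 = 1 - 1 / Fintype.card V := by
  unfold P
  have e : (1:ℕ) + 1 = 2 := rfl
  rw [e, N_one hH, N_two hH, Nat.cast_choose_two]
  have : (0:ℝ) < Fintype.card V := by exact_mod_cast hV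
  push_cast
  field_simp
  ring

/-- core asymptotic statement in terms of the maximum degree -/
theorem core {c : ℝ} (hc : c < (6/5) ^ 5) :
    ∃ ε τ0 : ℝ, 0 < ε ∧ 0 < τ0 ∧ ∀ (V : Type) [Fintype V] [DecidableEq V]
      (H : Finset (Finset V)) (m : ℕ) (Δ : ℝ), (∀ e ∈ H, e.card = 3) →
      (∀ x, (deg H x : ℝ) ≤ Δ) → 0 < Δ → 2 ≤ m → (∀ S : Finset V, S.card = m → ¬ Ind H S) →
      1 / ε ≤ Fintype.card V → Δ / (Fintype.card V : ℝ) ^ 2 ≤ τ0 →
      c < ((m:ℝ) - 1) ^ 2 * (Δ / (Fintype.card V : ℝ) ^ 2) := by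
  obtain ⟨ε, hε, hev⟩ := discrete_bound hc
  rw [eventually_atTop] at hev
  obtain ⟨M0, hM0⟩ := hev
  refine ⟨ε, 1 / (max M0 1) ^ 2, hε, by positivity, ?_⟩
  intro V _ _ H m Δ hH hΔ hΔ0 hm hI hcard hτ
  have hn0 : (0:ℝ) < Fintype.card V := lt_of_lt_of_le (by positivity) hcard
  have hV : 0 < Fintype.card V := by exact_mod_cast hn0
  obtain ⟨τ, hτd⟩ : ∃ τ, τ = Δ / (Fintype.card V : ℝ) ^ 2 := ⟨_, rfl⟩
  have hτ0 : 0 < τ := by rw [hτd]; positivity
  rw [← hτd] at hτ ⊢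
  obtain ⟨M, hM⟩ : ∃ M, M = 1 / √τ := ⟨_, rfl⟩
  have hMpos : 0 < M := by rw [hM]; positivity
  have hM2 : 1 / M ^ 2 = τ := by
    rw [hM, div_pow, one_pow, Real.sq_sqrt hτ0.le]; field_simp
  have hMM : M0 ≤ M := by
    have h1 : 1 / M ^ 2 ≤ 1 / (max M0 1) ^ 2 := by rw [hM2]; exact hτ
    have h2 : (max M0 1) ^ 2 ≤ M ^ 2 := by
      rwa [one_div_le_one_div (by positivity) (by positivity)] at h1
    exact (le_max_left _ _).trans (le_of_sq_le_sq h2 hMpos.le)
  have hyp : Hyp M ε (runmin (P H)) := by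
    refine hyp_runmin (fun k => P_nonneg k) ?_ ?_
    · rw [P_one hH hV]
      have : 1 / (Fintype.card V : ℝ) ≤ ε := by
        rw [div_le_iff₀ hn0]
        rw [div_le_iff₀ hε] at hcard
        linarith
      linarith
    · intro k hk
      rw [hM2, hτd]
      exact P_rec hH hΔ hV hk
  by_contra hcon
  push Not at hcon
  obtain ⟨k, rfl⟩ : ∃ k, m = k + 1 := ⟨m - 1, by omega⟩
  have h1 := hM0 M hMM (runmin (P H)) hyp k (by omega) (by
    have : M ^ 2 = 1 / τ := by rw [← hM2]; field_simp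
    rw [this, mul_one_div, le_div_iff₀ hτ0]
    push_cast at hcon
    simpa using hcon)
  have h2 : P H k = 0 := by
    unfold P
    have : N H (k+1) = 0 := by
      unfold N
      rw [card_eq_zero, eq_empty_iff_forall_notMem]
      intro S hS
      rw [mem_I] at hS
      exact hI S hS.1 hS.2
    rw [this]; simp
  have h3 := runmin_le (P := P H) k (by omega)
  linarith

end Pool.Agent.TuranLarge
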