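import Mathlib
import Pool.Agent.TuranLarge.Global

set_option autoImplicit false

namespace Pool.Agent.TuranLarge
open Finset

variable {V : Type*} [Fintype V] [DecidableEq V]

/-- the number of edges containing `x` -/
def dg (H : Finset (Finset V)) (x : V) : ℕ := (H.filter (fun e => x ∈ e)).card

/-- `H` with the link of `x'` replaced by the link of `x`, and all triples `x x' z` added -/
def clone (H : Finset (Finset V)) (x x' : V) : Finset (Finset V) :=
  (H.filter (fun e => x' ∉ e))
    ∪ ((H.filter (fun e => x ∈ e ∧ x' ∉ e)).image (fun e => insert x' (e.erase x)))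
    ∪ ((univ.filter (fun z => z ≠ x ∧ z ≠ x')).image (fun z => ({x, x', z} : Finset V)))

lemma card_clone_add (H : Finset (Finset V)) (x x' : V) :
    (clone H x x').card + dg H x' ≤ H.card + dg H x + Fintype.card V := by
  have h1 : (clone H x x').card ≤ (H.filter (fun e => x' ∉ e)).card
      + (H.filter (fun e => x ∈ e ∧ x' ∉ e)).card
      + (univ.filter (fun z => z ≠ x ∧ z ≠ x')).card := by
    unfold clone
    refine (card_union_le _ _).trans ?_
    refine add_le_add ((card_union_le _ _).trans ?_) card_image_le
    exact add_le_add le_rfl card_image_le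
  have h2 : (H.filter (fun e => x ∈ e ∧ x' ∉ e)).card ≤ dg H x := by
    unfold dg
    refine card_le_card (fun e he => ?_)
    simp only [mem_filter] at he ⊢
    exact ⟨he.1, he.2.1⟩
  have h3 : (univ.filter (fun z => z ≠ x ∧ z ≠ x')).card ≤ Fintype.card V := by
    refine (card_le_univ _)
  have h4 : (H.filter (fun e => x' ∉ e)).card + dg H x' = H.card := by
    unfold dg
    rw [add_comm]
    exact card_filter_add_card_filter_not (s := H) (fun e => x' ∈ e)
  omega

lemma clone_card3 {H : Finset (Finset V)} (hH : ∀ e ∈ H, e.card = 3) {x x' : V} (hx : x ≠ x') :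
    ∀ e ∈ clone H x x', e.card = 3 := by
  intro e he
  unfold clone at he
  simp only [mem_union, mem_filter, mem_image, mem_univ, true_and] at he
  rcases he with (⟨he, -⟩ | ⟨f, ⟨hf, hxf, hx'f⟩, rfl⟩) | ⟨z, ⟨hz1, hz2⟩, rfl⟩
  · exact hH e he
  · rw [card_insert_of_notMem, card_erase_of_mem hxf, hH f hf]
    intro h
    exact hx'f (mem_of_mem_erase h)
  · rw [card_insert_of_notMem, card_insert_of_notMem, card_singleton]
    · simpa using hz2.symm
    · simp only [mem_insert, mem_singleton, not_or]
      exact ⟨hx, hz1.symm⟩

lemma clone_noind {H : Finset (Finset V)} {m : ℕ} (hm : 3 ≤ m)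
    (hI : ∀ S : Finset V, S.card = m → ¬ Ind H S) (x x' : V) :
    ∀ S : Finset V, S.card = m → ¬ Ind (clone H x x') S := by
  intro S hS hind
  by_cases hx' : x' ∈ S
  · by_cases hx : x ∈ S
    · obtain ⟨z, hz⟩ : ((S.erase x).erase x').Nonempty := by
        rw [← card_pos]
        have h1 := pred_card_le_card_erase (s := S) (a := x)
        have h2 := pred_card_le_card_erase (s := S.erase x) (a := x')
        omega
      simp only [mem_erase] at hz
      refine hind {x, x', z} ?_ ?_
      · unfold clone
        simp only [mem_union, mem_image, mem_filter, mem_univ, true_and]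
        exact Or.inr ⟨z, ⟨hz.2.1, hz.1⟩, rfl⟩
      · intro a ha
        simp only [mem_insert, mem_singleton] at ha
        rcases ha with rfl | rfl | rfl
        · exact hx
        · exact hx'
        · exact hz.2.2
    · have hx'e : x ∉ S.erase x' := fun h => hx (mem_of_mem_erase h)
      refine hI (insert x (S.erase x')) ?_ ?_
      · rw [card_insert_of_notMem hx'e, card_erase_of_mem hx', hS]
        omega
      · intro e he hs
        have hx'e2 : x' ∉ e := by
          intro h
          have := hs h
          rw [mem_insert] at this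
          rcases this with rfl | h'
          · exact hx hx'
          · exact notMem_erase _ _ h'
        by_cases hxe : x ∈ e
        · refine hind (insert x' (e.erase x)) ?_ ?_
          · unfold clone
            simp only [mem_union, mem_image, mem_filter, mem_univ, true_and]
            exact Or.inl (Or.inr ⟨e, ⟨he, hxe, hx'e2⟩, rfl⟩)
          · intro a ha
            rw [mem_insert] at ha
            rcases ha with rfl | ha
            · exact hx'
            · rw [mem_erase] at ha
              have := hs ha.2
              rw [mem_insert] at this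
              rcases this with h | h
              · exact absurd h ha.1
              · exact mem_of_mem_erase h
        · refine hind e ?_ ?_
          · unfold clone
            simp only [mem_union, mem_filter]
            exact Or.inl (Or.inl ⟨he, hx'e2⟩)
          · intro a ha
            have := hs ha
            rw [mem_insert] at this
            rcases this with rfl | h
            · exact absurd ha hxe
            · exact mem_of_mem_erase h
  · refine hI S hS (fun e he hs => ?_)
    refine hind e ?_ hs
    unfold clone
    simp only [mem_union, mem_filter]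
    exact Or.inl (Or.inl ⟨he, fun h => hx' (hs h)⟩)

lemma deg_le {H : Finset (Finset V)} (hH : ∀ e ∈ H, e.card = 3) (x : V) :
    deg H x ≤ 2 * dg H x + 3 * Fintype.card V := by
  have key : ∀ y z : V, (if E H x y z then 1 else 0) ≤ (if x = y then 1 else 0)
      + (if x = z then 1 else 0) + (if y = z then 1 else 0)
      + ∑ e ∈ H.filter (fun e => x ∈ e), (if (y, z) ∈ (e.erase x).offDiag then 1 else 0) := by
    intro y z
    by_cases hE : E H x y z
    · rw [if_pos hE]
      by_cases h1 : x = y
      · rw [if_pos h1]; omega
      by_cases h2 : x = z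
      · rw [if_pos h2]; omega
      by_cases h3 : y = z
      · rw [if_pos h3]; omega
      have he : ({x, y, z} : Finset V) ∈ H := by
        rcases hE with h | h | h | h
        · exact absurd h h1
        · exact absurd h h2
        · exact absurd h h3
        · exact h
      have : 1 ≤ ∑ e ∈ H.filter (fun e => x ∈ e), (if (y, z) ∈ (e.erase x).offDiag then 1 else 0) := by
        have hmem : ({x, y, z} : Finset V) ∈ H.filter (fun e => x ∈ e) := by
          simp [he]
        refine le_trans ?_ (single_le_sum (fun e _ => Nat.zero_le _) hmem)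
        rw [if_pos]
        rw [mem_offDiag]
        exact ⟨mem_erase.2 ⟨fun h => h1 h.symm, by simp⟩,
          mem_erase.2 ⟨fun h => h2 h.symm, by simp⟩, h3⟩
      omega
    · rw [if_neg hE]; exact Nat.zero_le _
  unfold deg
  refine (sum_le_sum (fun y _ => sum_le_sum (fun z _ => key y z))).trans ?_
  simp_rw [sum_add_distrib]
  have e1 : ∑ y : V, ∑ _z : V, (if x = y then 1 else 0) = Fintype.card V := by
    rw [Finset.sum_comm]; simp
  have e2 : ∑ y : V, ∑ z : V, (if x = z then 1 else 0) = Fintype.card V := by
    simp
  have e3 : ∑ y : V, ∑ z : V, (if y = z then 1 else 0) = Fintype.card V := by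
    simp
  have e4 : ∑ y : V, ∑ z : V, ∑ e ∈ H.filter (fun e => x ∈ e),
      (if (y, z) ∈ (e.erase x).offDiag then 1 else 0) ≤ 2 * dg H x := by
    calc ∑ y : V, ∑ z : V, ∑ e ∈ H.filter (fun e => x ∈ e),
        (if (y, z) ∈ (e.erase x).offDiag then 1 else 0)
        = ∑ e ∈ H.filter (fun e => x ∈ e), ∑ y : V, ∑ z : V,
          (if (y, z) ∈ (e.erase x).offDiag then 1 else 0) := by
          rw [Finset.sum_comm' (s := univ) (t := fun _ => univ) (t' := univ) (s' := fun _ => univ)
            (by simp)]
          rw [Finset.sum_comm]
          refine ?_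
          rw [Finset.sum_comm]
          calc ∑ y : V, ∑ x_1 : V, ∑ x_2 ∈ H.filter (fun e => x ∈ e),
                (if (x_1, y) ∈ (x_2.erase x).offDiag then 1 else 0)
              = ∑ y : V, ∑ x_2 ∈ H.filter (fun e => x ∈ e), ∑ x_1 : V,
                (if (x_1, y) ∈ (x_2.erase x).offDiag then 1 else 0) := by
                refine sum_congr rfl (fun y _ => ?_)
                rw [Finset.sum_comm]
            _ = ∑ x_2 ∈ H.filter (fun e => x ∈ e), ∑ y : V, ∑ x_1 : V,
                (if (x_1, y) ∈ (x_2.erase x).offDiag then 1 else 0) := by rw [Finset.sum_comm]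
            _ = _ := by
                refine sum_congr rfl (fun e _ => ?_)
                rw [Finset.sum_comm]
      _ = ∑ e ∈ H.filter (fun e => x ∈ e), ((e.erase x).offDiag).card := by
          refine sum_congr rfl (fun e _ => ?_)
          rw [← Fintype.sum_prod_type' (f := fun y z => if (y, z) ∈ (e.erase x).offDiag then 1 else 0)]
          rw [Finset.sum_ite_mem, Finset.univ_inter, card_eq_sum_ones]
      _ = ∑ e ∈ H.filter (fun e => x ∈ e), 2 := by
          refine sum_congr rfl (fun e he => ?_)
          rw [mem_filter] at he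
          rw [offDiag_card, card_erase_of_mem he.2, hH e he.1]
      _ = 2 * dg H x := by
          rw [sum_const, smul_eq_mul, mul_comm]; rfl
      _ ≤ 2 * dg H x := le_rfl
  rw [e1, e2, e3]
  omega

lemma sum_dg {H : Finset (Finset V)} (hH : ∀ e ∈ H, e.card = 3) : ∑ x, dg H x = 3 * H.card := by
  unfold dg
  simp_rw [card_filter]
  rw [Finset.sum_comm]
  calc ∑ e ∈ H, ∑ x : V, (if x ∈ e then 1 else 0) = ∑ e ∈ H, 3 := by
        refine sum_congr rfl (fun e he => ?_)
        rw [← card_filter]
        have : univ.filter (fun x => x ∈ e) = e := by ext; simp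
        rw [this, hH e he]
    _ = 3 * H.card := by rw [sum_const, smul_eq_mul, mul_comm]

/-- Zykov symmetrisation: among all `3`-graphs without independent `m`-sets on `V`, one of minimal
size is almost regular. -/
theorem exists_regular {m : ℕ} (hm : 3 ≤ m) (H : Finset (Finset V))
    (hH : ∀ e ∈ H, e.card = 3) (hI : ∀ S : Finset V, S.card = m → ¬ Ind H S) :
    ∃ H0 : Finset (Finset V), (∀ e ∈ H0, e.card = 3) ∧
      (∀ S : Finset V, S.card = m → ¬ Ind H0 S) ∧ H0.card ≤ H.card ∧
      ∀ x, Fintype.card V * deg H0 x ≤ 6 * H0.card + 5 * (Fintype.card V) ^ 2 := by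
  classical
  let P : Finset (Finset (Finset V)) := univ.filter (fun H' => (∀ e ∈ H', e.card = 3) ∧
    (∀ S : Finset V, S.card = m → ¬ Ind H' S))
  have hP : P.Nonempty := ⟨H, by simp only [P, mem_filter, mem_univ, true_and]; exact ⟨hH, hI⟩⟩
  obtain ⟨H0, hH0, hmin⟩ := exists_min_image P card hP
  simp only [P, mem_filter, mem_univ, true_and] at hH0 hmin
  refine ⟨H0, hH0.1, hH0.2, hmin H ⟨hH, hI⟩, ?_⟩
  have hd : ∀ x x' : V, dg H0 x' ≤ dg H0 x + Fintype.card V := by
    intro x x'
    by_cases hxx : x = x'
    · subst hxx; omega
    have h1 := hmin (clone H0 x x') ⟨clone_card3 hH0.1 hxx, clone_noind hm hH0.2 x x'⟩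
    have h2 := card_clone_add H0 x x'
    omega
  intro x'
  have h3 : Fintype.card V * dg H0 x' ≤ 3 * H0.card + Fintype.card V * Fintype.card V := by
    have : ∑ _x : V, dg H0 x' ≤ ∑ x : V, (dg H0 x + Fintype.card V) :=
      sum_le_sum (fun x _ => hd x x')
    rw [sum_add_distrib, sum_dg hH0.1] at this
    simpa using this
  have h4 := deg_le hH0.1 x'
  nlinarith [Nat.mul_le_mul_left (Fintype.card V) h4]

end Pool.Agent.TuranLarge
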