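import Mathlib
import Pool.Agent.TuranLarge.Norm
import Pool.Agent.TuranLarge.Zykov

set_option autoImplicit false

namespace Pool.Agent.TuranLarge
open Finset Filter Topology

/-- disjoint copies of a 3-graph -/
def copies {V : Type} [DecidableEq V] (r : ℕ) (H : Finset (Finset V)) :
    Finset (Finset (V × Fin r)) :=
  (H ×ˢ (univ : Finset (Fin r))).image (fun p => p.1 ×ˢ {p.2})

lemma copies_card_le {V : Type} [DecidableEq V] (r : ℕ) (H : Finset (Finset V)) :
    (copies r H).card ≤ r * H.card := by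
  unfold copies
  refine card_image_le.trans ?_
  rw [card_product, card_univ, Fintype.card_fin, mul_comm]

lemma copies_three {V : Type} [DecidableEq V] {r : ℕ} {H : Finset (Finset V)}
    (hH : ∀ e ∈ H, e.card = 3) : ∀ e ∈ copies r H, e.card = 3 := by
  intro e he
  unfold copies at he
  rw [mem_image] at he
  obtain ⟨⟨f, i⟩, hf, rfl⟩ := he
  rw [mem_product] at hf
  rw [card_product, card_singleton, mul_one]
  exact hH f hf.1

lemma copies_ind {V : Type} [Fintype V] [DecidableEq V] {r m : ℕ} {H : Finset (Finset V)}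
    (hI : ∀ S : Finset V, S.card = m → ¬ Ind H S) (hm : 1 ≤ m) :
    ∀ S : Finset (V × Fin r), S.card = r * (m - 1) + 1 → ¬ Ind (copies r H) S := by
  intro S hS hInd
  obtain ⟨i, -, hi⟩ := Finset.exists_lt_card_fiber_of_mul_lt_card_of_maps_to
    (s := S) (t := (univ : Finset (Fin r))) (f := fun p => p.2) (n := m - 1)
    (fun p _ => mem_univ _) (by rw [card_univ, Fintype.card_fin, hS]; omega)
  have hinj : Set.InjOn (fun p : V × Fin r => p.1) (S.filter (fun p => p.2 = i)) := by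
    rintro ⟨a, b⟩ h1 ⟨a', b'⟩ h2 h3
    simp only [coe_filter, Set.mem_ofPred_eq] at h1 h2 h3
    rw [h3, h1.2, h2.2]
  have hcard : m ≤ ((S.filter (fun p => p.2 = i)).image (fun p => p.1)).card := by
    rw [card_image_of_injOn hinj]; omega
  obtain ⟨T, hT, hTc⟩ := exists_subset_card_eq hcard
  refine hI T hTc (fun e he heT => ?_)
  refine hInd (e ×ˢ {i}) ?_ ?_
  · unfold copies
    rw [mem_image]
    exact ⟨(e, i), by simp [he], rfl⟩
  · rintro ⟨a, b⟩ hab
    rw [mem_product, mem_singleton] at hab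
    have := hT (heT hab.1)
    rw [mem_image] at this
    obtain ⟨⟨a', b'⟩, h1, h2⟩ := this
    rw [mem_filter] at h1
    simp only at h1 h2 hab
    rw [← h2, hab.2, ← h1.2]
    exact h1.1

/-- uniform lower bound for the number of missing triples -/
theorem uniform_bound {c : ℝ} (hc : c < (6/5) ^ 5) :
    ∃ R : ℝ, 0 < R ∧ ∀ (n m : ℕ) (H : Finset (Finset (Fin n))), 1 ≤ n → 3 ≤ m →
      (∀ e ∈ H, e.card = 3) → (∀ S : Finset (Fin n), S.card = m → ¬ Ind H S) →
      c / ((m:ℝ) - 1) ^ 2 ≤ 6 * H.card / (n:ℝ) ^ 3 + R / n := by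
  obtain ⟨ε, τ0, hε, hτ0, hcore⟩ := core hc
  obtain ⟨r, hr⟩ := exists_nat_gt (max (max (1/ε) (6/τ0)) 1)
  have hr1 : (1:ℝ) < r := (le_max_right _ _).trans_lt hr
  have hrε : 1/ε < (r:ℝ) := ((le_max_left _ _).trans (le_max_left _ _)).trans_lt hr
  have hrτ : 6/τ0 < (r:ℝ) := ((le_max_right _ _).trans (le_max_left _ _)).trans_lt hr
  have hr0 : (0:ℝ) < r := by linarith
  refine ⟨5 * r, by positivity, ?_⟩
  intro n m H hn hm hH hI
  have hn0 : (0:ℝ) < n := by exact_mod_cast hn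
  have hn1 : (1:ℝ) ≤ n := by exact_mod_cast hn
  have hm0 : (0:ℝ) < (m:ℝ) - 1 := by
    have : (3:ℝ) ≤ m := by exact_mod_cast hm
    linarith
  have hcardV : Fintype.card (Fin n × Fin r) = n * r := by
    rw [Fintype.card_prod, Fintype.card_fin, Fintype.card_fin]
  have hm' : 3 ≤ r * (m - 1) + 1 := by
    have h1 : 2 ≤ m - 1 := by omega
    have h2 : 1 ≤ r := by exact_mod_cast hr1.le
    nlinarith
  obtain ⟨H0, h1, h2, h3, h4⟩ := exists_regular hm' (copies r H) (copies_three hH)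
    (copies_ind hI (by omega))
  rw [hcardV] at h4
  have hHn : (6:ℝ) * H.card ≤ (n:ℝ) ^ 3 := by
    have a1 : H.card ≤ n.choose 3 := by
      have : H ⊆ (univ : Finset (Fin n)).powersetCard 3 := by
        intro e he
        rw [mem_powersetCard]
        exact ⟨subset_univ _, hH e he⟩
      have := card_le_card this
      rwa [card_powersetCard, card_univ, Fintype.card_fin] at this
    have a2 : (n.choose 3 : ℝ) ≤ (n:ℝ) ^ 3 / 6 := by
      have := Nat.choose_le_pow_div (α := ℝ) 3 n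
      norm_num [Nat.factorial] at this
      exact this
    have a3 : (H.card : ℝ) ≤ (n.choose 3 : ℝ) := by exact_mod_cast a1
    linarith
  obtain ⟨Δ, hΔ⟩ : ∃ Δ : ℝ, Δ = (6 * (r * H.card) + 5 * (n * r) ^ 2) / (n * r) := ⟨_, rfl⟩
  have hΔ0 : 0 < Δ := by rw [hΔ]; positivity
  have hdeg : ∀ x, (deg H0 x : ℝ) ≤ Δ := by
    intro x
    rw [hΔ, le_div_iff₀ (by positivity)]
    have a1 := h4 x
    have a2 : ((n * r * deg H0 x : ℕ) : ℝ) ≤ ((6 * H0.card + 5 * (n * r) ^ 2 : ℕ) : ℝ) := by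
      exact_mod_cast a1
    push_cast at a2
    have a3 : (H0.card : ℝ) ≤ r * H.card := by
      exact_mod_cast h3.trans (copies_card_le r H)
    linarith
  have hcardR : (Fintype.card (Fin n × Fin r) : ℝ) = n * r := by rw [hcardV]; push_cast; ring
  have hτ : Δ / (Fintype.card (Fin n × Fin r) : ℝ) ^ 2
      = 6 * H.card / (r ^ 2 * (n:ℝ) ^ 3) + 5 / (n * r) := by
    rw [hcardR, hΔ]; field_simp
  have := hcore (Fin n × Fin r) H0 (r * (m - 1) + 1) Δ h1 hdeg hΔ0 (by omega) h2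
    (by rw [hcardR]; nlinarith)
    (by
      rw [hτ]
      have b1 : 6 * H.card / (r ^ 2 * (n:ℝ) ^ 3) ≤ 1 / r := by
        rw [div_le_div_iff₀ (by positivity) (by positivity)]
        have : (n:ℝ) ^ 3 * r ≤ 1 * (r ^ 2 * (n:ℝ) ^ 3) := by
          have : (r:ℝ) ≤ r ^ 2 := by nlinarith
          nlinarith [mul_le_mul_of_nonneg_left this (show (0:ℝ) ≤ (n:ℝ) ^ 3 by positivity)]
        nlinarith
      have b2 : 5 / ((n:ℝ) * r) ≤ 5 / r := by
        apply div_le_div_of_nonneg_left (by norm_num) hr0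
        nlinarith
      have b3 : 1 / (r:ℝ) + 5 / r = 6 / r := by ring
      have b4 : 6 / (r:ℝ) ≤ τ0 := by
        rw [div_le_iff₀ hr0]
        rw [div_lt_iff₀ hτ0] at hrτ
        linarith
      linarith)
  rw [hτ] at this
  have hmr : (((r * (m - 1) + 1 : ℕ) : ℝ) - 1) = r * ((m:ℝ) - 1) := by
    push_cast [Nat.cast_sub (show 1 ≤ m by omega)]
    ring
  rw [hmr] at this
  rw [div_le_iff₀ (by positivity)]
  have e : (6 * H.card / (n:ℝ) ^ 3 + 5 * r / n) * ((m:ℝ) - 1) ^ 2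
      = (r * ((m:ℝ) - 1)) ^ 2 * (6 * H.card / (r ^ 2 * (n:ℝ) ^ 3) + 5 / (n * r)) := by
    field_simp
  rw [e]
  exact this.le

/-- Turán number of the complete 3-graph on `m` vertices -/
noncomputable def exK (n m : ℕ) : ℕ :=
  sSup {k : ℕ | ∃ G : Finset (Finset (Fin n)), (∀ e ∈ G, e.card = 3) ∧
    (∀ S : Finset (Fin n), S.card = m → ¬ (S.powersetCard 3 ⊆ G)) ∧ G.card = k}

lemma exK_attained (n m : ℕ) (hm : 3 ≤ m) : ∃ G : Finset (Finset (Fin n)), (∀ e ∈ G, e.card = 3) ∧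
    (∀ S : Finset (Fin n), S.card = m → ¬ (S.powersetCard 3 ⊆ G)) ∧ G.card = exK n m := by
  have hne : {k : ℕ | ∃ G : Finset (Finset (Fin n)), (∀ e ∈ G, e.card = 3) ∧
    (∀ S : Finset (Fin n), S.card = m → ¬ (S.powersetCard 3 ⊆ G)) ∧ G.card = k}.Nonempty := by
    refine ⟨0, ∅, by simp, ?_, by simp⟩
    intro S hS h
    have h1 : (S.powersetCard 3).Nonempty := by
      rw [powersetCard_nonempty]; omega
    obtain ⟨e, he⟩ := h1
    exact absurd (h he) (notMem_empty _)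
  have hbdd : BddAbove {k : ℕ | ∃ G : Finset (Finset (Fin n)), (∀ e ∈ G, e.card = 3) ∧
    (∀ S : Finset (Fin n), S.card = m → ¬ (S.powersetCard 3 ⊆ G)) ∧ G.card = k} := by
    refine ⟨Fintype.card (Finset (Fin n)), ?_⟩
    rintro k ⟨G, -, -, rfl⟩
    exact card_le_univ G
  exact Nat.sSup_mem hne hbdd

/-- explicit form -/
theorem main_explicit {c : ℝ} (hc : c < (6/5) ^ 5) :
    ∃ R : ℝ, 0 < R ∧ ∀ (n m : ℕ), 3 ≤ n → 3 ≤ m →
      (exK n m : ℝ) / ((n.choose 3 : ℕ) : ℝ) ≤ 1 - c / ((m:ℝ) - 1) ^ 2 + R / n := by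
  obtain ⟨R, hR, h⟩ := uniform_bound hc
  refine ⟨R, hR, ?_⟩
  intro n m hn hm
  obtain ⟨G, hG3, hGm, hGc⟩ := exK_attained n m hm
  obtain ⟨H, hHd⟩ : ∃ H, H = (univ : Finset (Fin n)).powersetCard 3 \ G := ⟨_, rfl⟩
  have hGsub : G ⊆ (univ : Finset (Fin n)).powersetCard 3 := by
    intro e he
    rw [mem_powersetCard]
    exact ⟨subset_univ _, hG3 e he⟩
  have hcard : H.card + G.card = n.choose 3 := by
    rw [hHd, card_sdiff_add_card_eq_card hGsub, card_powersetCard, card_univ, Fintype.card_fin]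
  have h1 := h n m H (by omega) hm (by
    intro e he
    rw [hHd, Finset.mem_sdiff, mem_powersetCard] at he
    exact he.1.2) (by
    intro S hS hInd
    refine hGm S hS (fun e he => ?_)
    rw [mem_powersetCard] at he
    by_contra hne
    refine hInd e ?_ he.1
    rw [hHd, Finset.mem_sdiff, mem_powersetCard]
    exact ⟨⟨subset_univ _, he.2⟩, hne⟩)
  have hn0 : (0:ℝ) < n := by exact_mod_cast (by omega : 0 < n)
  have hC0 : (0:ℝ) < (n.choose 3 : ℕ) := by exact_mod_cast Nat.choose_pos hn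
  have a2 : (n.choose 3 : ℝ) ≤ (n:ℝ) ^ 3 / 6 := by
    have := Nat.choose_le_pow_div (α := ℝ) 3 n
    norm_num [Nat.factorial] at this
    exact this
  have a3 : 6 * H.card / (n:ℝ) ^ 3 ≤ H.card / ((n.choose 3 : ℕ) : ℝ) := by
    rw [div_le_div_iff₀ (by positivity) hC0]
    have : (0:ℝ) ≤ H.card := by positivity
    nlinarith
  have a4 : (exK n m : ℝ) / ((n.choose 3 : ℕ) : ℝ) = 1 - H.card / ((n.choose 3 : ℕ) : ℝ) := by
    rw [← hGc]
    have : (H.card : ℝ) + G.card = ((n.choose 3 : ℕ) : ℝ) := by exact_mod_cast hcard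
    field_simp
    linarith
  rw [a4]
  linarith

/-- main theorem -/
theorem main (m : ℕ) (hm : 3 ≤ m) (ε : ℝ) (hε : 0 < ε) :
    ∀ᶠ n : ℕ in atTop, (exK n m : ℝ) / ((n.choose 3 : ℕ) : ℝ)
      ≤ 1 - (6/5) ^ 5 / ((m:ℝ) - 1) ^ 2 + ε := by
  have hm0 : (0:ℝ) < (m:ℝ) - 1 := by
    have : (3:ℝ) ≤ m := by exact_mod_cast hm
    linarith
  obtain ⟨R, hR, h⟩ := main_explicit (c := (6/5) ^ 5 - ε / 2 * ((m:ℝ) - 1) ^ 2) (by
    have : 0 < ε / 2 * ((m:ℝ) - 1) ^ 2 := by positivity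
    linarith)
  have ht : Tendsto (fun n : ℕ => R / (n:ℝ)) atTop (𝓝 0) := tendsto_const_div_atTop_nhds_zero_nat R
  filter_upwards [eventually_ge_atTop 3, ht.eventually (gt_mem_nhds (show 0 < ε / 2 by positivity))]
    with n hn hn2
  have h1 := h n m hn hm
  have e : ((6/5:ℝ) ^ 5 - ε / 2 * ((m:ℝ) - 1) ^ 2) / ((m:ℝ) - 1) ^ 2
      = (6/5) ^ 5 / ((m:ℝ) - 1) ^ 2 - ε / 2 := by
    field_simp
  rw [e] at h1
  linarith

end Pool.Agent.TuranLarge
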